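import Mathlib

/-!
# A homogeneous edge-labelled complete graph
-/

set_option autoImplicit false

namespace Pool.Agent.Q216.UU

/-- The labels: a shade and either an index with a number, or `∞` (`none`). -/
abbrev Lb (n : ℕ) : Type := Fin (2 * n + 1) × Option (ℕ × Fin (n * n + n))

/-- The index of a label. -/
def ind {n : ℕ} (t : Lb n) : Option ℕ := t.2.map Prod.fst

/-- Two labels with the same index, and different numbers if the index is not `∞`. -/
def Good {n : ℕ} (a b : Lb n) : Prop := ind a = ind b ∧ (a.2 = none ∨ a.2 ≠ b.2)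

/-- The allowed triangles. -/
def Allowed {n : ℕ} (a b c : Lb n) : Prop :=
  a.1 = b.1 → a.1 = c.1 → Good a b ∨ Good a c ∨ Good b c

theorem ind_eq_none {n : ℕ} {t : Lb n} : ind t = none ↔ t.2 = none := by
  simp [ind]

theorem Good.symm {n : ℕ} {a b : Lb n} (h : Good a b) : Good b a := by
  refine ⟨h.1.symm, ?_⟩
  rcases h.2 with h1 | h1
  · left
    rw [← ind_eq_none, ← h.1, ind_eq_none]
    exact h1
  · exact Or.inr (Ne.symm h1)

theorem Allowed.swap12 {n : ℕ} {a b c : Lb n} (h : Allowed a b c) : Allowed b a c := by
  intro h1 h2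
  rcases h h1.symm (h1.symm.trans h2) with h3 | h3 | h3
  · exact Or.inl h3.symm
  · exact Or.inr (Or.inr h3)
  · exact Or.inr (Or.inl h3)

theorem Allowed.swap23 {n : ℕ} {a b c : Lb n} (h : Allowed a b c) : Allowed a c b := by
  intro h1 h2
  rcases h h2 h1 with h3 | h3 | h3
  · exact Or.inr (Or.inl h3)
  · exact Or.inl h3
  · exact Or.inr (Or.inr h3.symm)

/-- Trees: a point is given by at most `n` earlier points and labels for them. -/
inductive Tr (n : ℕ) : Type
  | leaf : Tr n
  | node : (Fin n → Tr n) → (Fin n → Lb n) → Tr n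

namespace Tr

variable {n : ℕ}

open Classical in
/-- The label of `y` given by `x`. -/
noncomputable def el (x y : Tr n) : Option (Lb n) :=
  match x with
  | leaf => none
  | node f τ => if h : ∃ i, f i = y then some (τ h.choose) else none

theorem el_leaf (y : Tr n) : el leaf y = none := rfl

open Classical in
theorem el_node (f : Fin n → Tr n) (τ : Fin n → Lb n) (y : Tr n) :
    el (node f τ) y = if h : ∃ i, f i = y then some (τ h.choose) else none := rfl

/-- The shades of the labels given by `x`. -/
def used : Tr n → Finset (Fin (2 * n + 1))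
  | leaf => ∅
  | node _ τ => Finset.univ.image fun i => (τ i).1

/-- The rank. -/
def rank : Tr n → ℕ
  | leaf => 0
  | node f _ => (Finset.univ.sup fun i => rank (f i)) + 1

open Classical in
/-- A shade outside `T`. -/
noncomputable def frs (T : Finset (Fin (2 * n + 1))) : Fin (2 * n + 1) :=
  if h : ∃ s, s ∉ T then h.choose else 0

theorem used_card (x : Tr n) : x.used.card ≤ n := by
  cases x with
  | leaf => simp [used]
  | node f τ =>
    refine Finset.card_image_le.trans ?_
    simp

theorem frs_notMem (x y : Tr n) : frs (x.used ∪ y.used) ∉ x.used ∪ y.used := by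
  have h : ∃ s, s ∉ x.used ∪ y.used := by
    by_contra hcon
    push Not at hcon
    have h1 : (Finset.univ : Finset (Fin (2 * n + 1))) ⊆ x.used ∪ y.used := fun s _ => hcon s
    have h2 := Finset.card_le_card h1
    rw [Finset.card_univ, Fintype.card_fin] at h2
    have h3 := Finset.card_union_le x.used y.used
    have h4 := used_card x
    have h5 := used_card y
    omega
  unfold frs
  rw [dif_pos h]
  exact h.choose_spec

/-- The label of the pair `x`, `y`. -/
noncomputable def L (x y : Tr n) : Lb n :=
  ((el x y).orElse fun _ => el y x).getD (frs (x.used ∪ y.used), none)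

theorem rank_lt {x y : Tr n} {t : Lb n} (h : el x y = some t) : rank y < rank x := by
  cases x with
  | leaf => simp [el] at h
  | node f τ =>
    rw [el_node] at h
    split_ifs at h with h1
    obtain ⟨i, hi⟩ := h1
    rw [← hi]
    change rank (f i) < (Finset.univ.sup fun i => rank (f i)) + 1
    exact Nat.lt_succ_of_le (Finset.le_sup (f := fun i => rank (f i)) (Finset.mem_univ i))

theorem el_mem_used {x y : Tr n} {t : Lb n} (h : el x y = some t) : t.1 ∈ used x := by
  cases x with
  | leaf => simp [el] at h
  | node f τ =>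
    rw [el_node] at h
    split_ifs at h with h1
    rw [← Option.some.inj h]
    exact Finset.mem_image_of_mem _ (Finset.mem_univ _)

theorem el_none {x y : Tr n} (h : rank x ≤ rank y) : el x y = none := by
  rw [Option.eq_none_iff_forall_ne_some]
  intro t ht
  exact absurd (rank_lt ht) (not_lt.mpr h)

theorem L_symm (x y : Tr n) : L x y = L y x := by
  unfold L
  rw [Finset.union_comm]
  rcases le_total (rank x) (rank y) with h | h
  · rw [el_none h]
    cases el y x <;> rfl
  · rw [el_none h]
    cases el x y <;> rfl

theorem L_of_some {x y : Tr n} {t : Lb n} (h : el x y = some t) : L x y = t := by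
  unfold L
  rw [h]
  rfl

theorem L_of_none {x y : Tr n} (h : el x y = none) (h' : el y x = none) :
    L x y = (frs (x.used ∪ y.used), none) := by
  unfold L
  rw [h, h']
  rfl

/-- Hereditarily correct trees. -/
def Val : Tr n → Prop
  | leaf => True
  | node f τ => (∀ i, Val (f i)) ∧ (∀ i j, f i = f j → τ i = τ j) ∧
      ∀ i j, f i ≠ f j → Allowed (τ i) (τ j) (L (f i) (f j))

theorem allowed_of_rank {x y z : Tr n} (hx : Val x) (hyz : y ≠ z) (h1 : rank y ≤ rank x)
    (h2 : rank z ≤ rank x) : Allowed (L x y) (L x z) (L y z) := by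
  have ey : el y x = none := el_none h1
  have ez : el z x = none := el_none h2
  rcases h3 : el x y with _ | t
  · rcases h4 : el x z with _ | t'
    · rw [L_of_none h3 ey, L_of_none h4 ez]
      intro _ _
      exact Or.inl ⟨rfl, Or.inl rfl⟩
    · rw [L_of_none h3 ey, L_of_some h4]
      intro h5
      exfalso
      have h6 := frs_notMem x y
      have h7 : frs (x.used ∪ y.used) = t'.1 := h5
      rw [h7] at h6
      exact h6 (Finset.mem_union_left _ (el_mem_used h4))
  · rcases h4 : el x z with _ | t'
    · rw [L_of_some h3, L_of_none h4 ez]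
      intro h5
      exfalso
      have h6 := frs_notMem x z
      have h7 : t.1 = frs (x.used ∪ z.used) := h5
      rw [← h7] at h6
      exact h6 (Finset.mem_union_left _ (el_mem_used h3))
    · rw [L_of_some h3, L_of_some h4]
      cases x with
      | leaf => simp [el] at h3
      | node f τ =>
        rw [el_node] at h3 h4
        split_ifs at h3 with h5
        split_ifs at h4 with h6
        rw [← Option.some.inj h3, ← Option.some.inj h4]
        have h7 := h5.choose_spec
        have h8 := h6.choose_spec
        have h9 := hx.2.2 h5.choose h6.choose (by rw [h7, h8]; exact hyz)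
        rw [h7, h8] at h9
        exact h9

end Tr

/-- The points of the graph. -/
def Pt (n : ℕ) : Type := {x : Tr n // x.Val}

namespace Pt

variable {n : ℕ}

/-- The label of a pair of points. -/
noncomputable def L (x y : Pt n) : Lb n := Tr.L x.1 y.1

theorem L_symm (x y : Pt n) : L x y = L y x := Tr.L_symm _ _

theorem allowed (x y z : Pt n) (hxy : x ≠ y) (hxz : x ≠ z) (hyz : y ≠ z) :
    Allowed (L x y) (L x z) (L y z) := by
  have e1 : x.1 ≠ y.1 := fun h => hxy (Subtype.ext h)
  have e2 : x.1 ≠ z.1 := fun h => hxz (Subtype.ext h)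
  have e3 : y.1 ≠ z.1 := fun h => hyz (Subtype.ext h)
  rcases le_total (Tr.rank y.1) (Tr.rank x.1) with h1 | h1
  · rcases le_total (Tr.rank z.1) (Tr.rank x.1) with h2 | h2
    · exact Tr.allowed_of_rank x.2 e3 h1 h2
    · -- z has the largest rank
      have h3 := Tr.allowed_of_rank z.2 e1 h2 (h1.trans h2)
      -- Allowed (L z x) (L z y) (L x y)
      have h4 := h3.swap23.swap12
      rw [Tr.L_symm z.1 x.1, Tr.L_symm z.1 y.1] at h4
      exact h4
  · rcases le_total (Tr.rank z.1) (Tr.rank y.1) with h2 | h2
    · -- y has the largest rank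
      have h3 := Tr.allowed_of_rank y.2 e2 h1 h2
      -- Allowed (L y x) (L y z) (L x z)
      have h4 := h3.swap23
      rw [Tr.L_symm y.1 x.1] at h4
      exact h4
    · have h3 := Tr.allowed_of_rank z.2 e1 (h1.trans h2) h2
      have h4 := h3.swap23.swap12
      rw [Tr.L_symm z.1 x.1, Tr.L_symm z.1 y.1] at h4
      exact h4

/-- Extension property. -/
theorem ext (f : Fin n → Pt n) (τ : Fin n → Lb n) (h1 : ∀ i j, f i = f j → τ i = τ j)
    (h2 : ∀ i j, f i ≠ f j → Allowed (τ i) (τ j) (L (f i) (f j))) :
    ∃ x : Pt n, (∀ i, x ≠ f i) ∧ ∀ i, L x (f i) = τ i := by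
  have hval : (Tr.node (fun i => (f i).1) τ).Val :=
    ⟨fun i => (f i).2, fun i j h => h1 i j (Subtype.ext h),
      fun i j h => h2 i j fun h' => h (congrArg Subtype.val h')⟩
  have hel : ∀ i, Tr.el (Tr.node (fun i => (f i).1) τ) (f i).1 = some (τ i) := by
    intro i
    rw [Tr.el_node]
    have h : ∃ j, (fun i => (f i).1) j = (f i).1 := ⟨i, rfl⟩
    rw [dif_pos h]
    exact congrArg some (h1 _ _ (Subtype.ext h.choose_spec))
  refine ⟨⟨_, hval⟩, fun i hi => ?_, fun i => ?_⟩
  · have h3 := Tr.rank_lt (hel i)
    rw [← hi] at h3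
    exact absurd h3 (lt_irrefl _)
  · exact Tr.L_of_some (hel i)

instance : Nonempty (Pt n) := ⟨⟨Tr.leaf, trivial⟩⟩

end Pt

end Pool.Agent.Q216.UU
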