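import Mathlib
import Pool.Agent.Q216.UU.Model

/-!
# Back and forth in the homogeneous graph
-/

set_option autoImplicit false

namespace Pool.Agent.Q216.UU

variable {n : ℕ}

/-- `π` fixes the indices in `F`. -/
def FixF (π : Equiv.Perm (Option ℕ)) (F : Finset ℕ) : Prop := ∀ l ∈ F, π (some l) = some l

/-- The labels `t`, `t'` correspond. -/
structure LRel (π : Equiv.Perm (Option ℕ)) (F : Finset ℕ) (t t' : Lb n) : Prop where
  shade : t'.1 = t.1
  ind : ind t' = π (ind t)
  fix : ∀ l ∈ F, UU.ind t = some l → t' = t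

/-- The tuples `x`, `y` correspond. -/
def Rel {m : ℕ} (π : Equiv.Perm (Option ℕ)) (F : Finset ℕ) (x y : Fin m → Pt n) : Prop :=
  ∀ i j, (x i = x j ↔ y i = y j) ∧
    (x i ≠ x j → LRel π F ((x i).L (x j)) ((y i).L (y j)))

theorem fix_one (F : Finset ℕ) : FixF 1 F := fun _ _ => rfl

theorem FixF.symm {π : Equiv.Perm (Option ℕ)} {F : Finset ℕ} (h : FixF π F) : FixF π⁻¹ F := by
  intro l hl
  rw [Equiv.Perm.inv_eq_iff_eq, h l hl]

theorem FixF.mul {π ρ : Equiv.Perm (Option ℕ)} {F : Finset ℕ} (h : FixF π F) (h' : FixF ρ F) :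
    FixF (ρ * π) F := by
  intro l hl
  rw [Equiv.Perm.mul_apply, h l hl, h' l hl]

theorem LRel.refl (F : Finset ℕ) (t : Lb n) : LRel 1 F t t := ⟨rfl, rfl, fun _ _ _ => rfl⟩

theorem LRel.symm {π : Equiv.Perm (Option ℕ)} {F : Finset ℕ} (hπ : FixF π F) {t t' : Lb n}
    (h : LRel π F t t') : LRel π⁻¹ F t' t := by
  refine ⟨h.shade.symm, ?_, ?_⟩
  · rw [h.ind]
    exact (π.symm_apply_apply _).symm
  · intro l hl h1
    rw [h.ind] at h1
    exact (h.fix l hl (π.injective (h1.trans (hπ l hl).symm))).symm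

theorem LRel.trans {π ρ : Equiv.Perm (Option ℕ)} {F : Finset ℕ}
    {t t' t'' : Lb n} (h : LRel π F t t') (h' : LRel ρ F t' t'') : LRel (ρ * π) F t t'' := by
  refine ⟨h'.shade.trans h.shade, ?_, ?_⟩
  · rw [h'.ind, h.ind, Equiv.Perm.mul_apply]
  · intro l hl h1
    have h2 := h.fix l hl h1
    rw [← h2]
    refine h'.fix l hl ?_
    rw [h2, h1]

theorem LRel.mono {π : Equiv.Perm (Option ℕ)} {F F' : Finset ℕ} (hF : F ⊆ F') {t t' : Lb n}
    (h : LRel π F' t t') : LRel π F t t' :=
  ⟨h.shade, h.ind, fun l hl => h.fix l (hF hl)⟩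

section

variable {m : ℕ}

theorem Rel.refl (F : Finset ℕ) (x : Fin m → Pt n) : Rel 1 F x x :=
  fun _ _ => ⟨Iff.rfl, fun _ => LRel.refl F _⟩

theorem Rel.symm {π : Equiv.Perm (Option ℕ)} {F : Finset ℕ} (hπ : FixF π F) {x y : Fin m → Pt n}
    (h : Rel π F x y) : Rel π⁻¹ F y x :=
  fun i j => ⟨(h i j).1.symm, fun h1 => ((h i j).2 fun h2 => h1 ((h i j).1.mp h2)).symm hπ⟩

theorem Rel.trans {π ρ : Equiv.Perm (Option ℕ)} {F : Finset ℕ}
    {x y z : Fin m → Pt n} (h : Rel π F x y) (h' : Rel ρ F y z) : Rel (ρ * π) F x z :=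
  fun i j => ⟨(h i j).1.trans (h' i j).1, fun h1 => ((h i j).2 h1).trans
    ((h' i j).2 fun h2 => h1 ((h i j).1.mpr h2))⟩

theorem Rel.mono {π : Equiv.Perm (Option ℕ)} {F F' : Finset ℕ} (hF : F ⊆ F')
    {x y : Fin m → Pt n} (h : Rel π F' x y) : Rel π F x y :=
  fun i j => ⟨(h i j).1, fun h1 => ((h i j).2 h1).mono hF⟩

end

open Classical in
/-- The label which corresponds to `t`, with the number `m` if it can be chosen. -/
noncomputable def nl (π : Equiv.Perm (Option ℕ)) (F : Finset ℕ) (t : Lb n)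
    (m : Fin (n * n + n)) : Lb n :=
  (π (ind t)).elim (t.1, none) fun l => if l ∈ F then t else (t.1, some (l, m))

theorem nl_none {π : Equiv.Perm (Option ℕ)} {F : Finset ℕ} {t : Lb n} {m : Fin (n * n + n)}
    (h : π (ind t) = none) : nl π F t m = (t.1, none) := by
  unfold nl
  rw [h]
  rfl

theorem nl_mem {π : Equiv.Perm (Option ℕ)} {F : Finset ℕ} {t : Lb n} {m : Fin (n * n + n)}
    {l : ℕ} (h : π (ind t) = some l) (hl : l ∈ F) : nl π F t m = t := by
  unfold nl
  rw [h]
  exact if_pos hl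

theorem nl_notMem {π : Equiv.Perm (Option ℕ)} {F : Finset ℕ} {t : Lb n} {m : Fin (n * n + n)}
    {l : ℕ} (h : π (ind t) = some l) (hl : l ∉ F) : nl π F t m = (t.1, some (l, m)) := by
  unfold nl
  rw [h]
  exact if_neg hl

theorem nl_rel {π : Equiv.Perm (Option ℕ)} {F : Finset ℕ} (hπ : FixF π F) (t : Lb n)
    (m : Fin (n * n + n)) : LRel π F t (nl π F t m) := by
  rcases h : π (ind t) with _ | l
  · rw [nl_none h]
    refine ⟨rfl, by rw [h]; rfl, fun l hl h1 => ?_⟩
    rw [h1, hπ l hl] at h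
    exact absurd h (by simp)
  · by_cases hl : l ∈ F
    · rw [nl_mem h hl]
      refine ⟨rfl, ?_, fun _ _ _ => rfl⟩
      rw [h]
      exact π.injective (h.trans (hπ l hl).symm)
    · rw [nl_notMem h hl]
      refine ⟨rfl, by rw [h]; rfl, fun l' hl' h1 => ?_⟩
      rw [h1, hπ l' hl'] at h
      rw [← Option.some.inj h] at hl
      exact absurd hl' hl

theorem good_nl_nl {π : Equiv.Perm (Option ℕ)} {F : Finset ℕ} (hπ : FixF π F) {t s : Lb n}
    {m m' : Fin (n * n + n)} (hm : m ≠ m') (h : Good t s) : Good (nl π F t m) (nl π F s m') := by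
  refine ⟨by rw [(nl_rel hπ t m).ind, (nl_rel hπ s m').ind, h.1], ?_⟩
  rcases h1 : π (ind t) with _ | l
  · left
    rw [nl_none h1]
  · have h2 : π (ind s) = some l := by rw [← h.1, h1]
    by_cases hl : l ∈ F
    · rw [nl_mem h1 hl, nl_mem h2 hl]
      exact h.2
    · rw [nl_notMem h1 hl, nl_notMem h2 hl]
      right
      intro h3
      exact hm (congrArg Prod.snd (Option.some.inj h3))

theorem good_nl {π : Equiv.Perm (Option ℕ)} {F : Finset ℕ} (hπ : FixF π F) {t s s' : Lb n}
    {m : Fin (n * n + n)} (hs : LRel π F s s') (hm : s'.2.map Prod.snd ≠ some m) (h : Good t s) :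
    Good (nl π F t m) s' := by
  refine ⟨by rw [(nl_rel hπ t m).ind, hs.ind, h.1], ?_⟩
  rcases h1 : π (ind t) with _ | l
  · left
    rw [nl_none h1]
  · by_cases hl : l ∈ F
    · rw [nl_mem h1 hl]
      have h3 : ind s = some l := by
        rw [← h.1]
        exact π.injective (h1.trans (hπ l hl).symm)
      rw [hs.fix l hl h3]
      exact h.2
    · rw [nl_notMem h1 hl]
      right
      intro h3
      apply hm
      rw [← h3]
      rfl

theorem allowed_nl {π : Equiv.Perm (Option ℕ)} {F : Finset ℕ} (hπ : FixF π F) {t s r r' : Lb n}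
    {m m' : Fin (n * n + n)} (hm : m ≠ m') (hr : LRel π F r r')
    (h1 : r'.2.map Prod.snd ≠ some m) (h2 : r'.2.map Prod.snd ≠ some m') (h : Allowed t s r) :
    Allowed (nl π F t m) (nl π F s m') r' := by
  intro h3 h4
  rw [(nl_rel hπ t m).shade, (nl_rel hπ s m').shade] at h3
  rw [(nl_rel hπ t m).shade, hr.shade] at h4
  rcases h h3 h4 with h5 | h5 | h5
  · exact Or.inl (good_nl_nl hπ hm h5)
  · exact Or.inr (Or.inl (good_nl hπ hr h1 h5))
  · exact Or.inr (Or.inr (good_nl hπ hr h2 h5))

/-- Numbers which avoid the given ones. -/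
theorem exists_numbers (y : Fin n → Pt n) :
    ∃ g : Fin n → Fin (n * n + n), Function.Injective g ∧
      ∀ a b c, ((y a).L (y b)).2.map Prod.snd ≠ some (g c) := by
  classical
  set T : Finset (Fin (n * n + n)) :=
    (Finset.univ : Finset (Fin n × Fin n)).biUnion
      fun p => (((y p.1).L (y p.2)).2.map Prod.snd).toFinset with hT
  have hcard : T.card ≤ n * n := by
    refine Finset.card_biUnion_le.trans ?_
    refine (Finset.sum_le_card_nsmul _ _ 1 ?_).trans ?_
    · intro p _
      rw [Option.card_toFinset]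
      cases (((y p.1).L (y p.2)).2.map Prod.snd) <;> simp
    · simp
  have h1 : n ≤ Fintype.card {m // m ∉ T} := by
    rw [Fintype.card_subtype_compl]
    simp only [Fintype.card_fin, Fintype.card_coe]
    omega
  have h2 : Nonempty (Fin n ↪ {m // m ∉ T}) := by
    apply Function.Embedding.nonempty_of_card_le
    rwa [Fintype.card_fin]
  obtain ⟨e⟩ := h2
  refine ⟨fun c => (e c).1, fun a b h => e.injective (Subtype.ext h), fun a b c h => ?_⟩
  apply (e c).2
  have hmem : ∀ m : Fin (n * n + n), ((y a).L (y b)).2.map Prod.snd = some m → m ∈ T := by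
    intro m hm
    rw [hT, Finset.mem_biUnion]
    exact ⟨(a, b), Finset.mem_univ _, by simp only; rw [hm]; simp⟩
  exact hmem _ h

/-- One step. -/
theorem Rel.step {π : Equiv.Perm (Option ℕ)} {F : Finset ℕ} (hπ : FixF π F) {x y : Fin n → Pt n}
    (h : Rel π F x y) (hn : 2 ≤ n) (i : Fin n) (x' : Pt n) :
    ∃ y' : Pt n, Rel π F (Function.update x i x') (Function.update y i y') := by
  classical
  by_cases hx : ∃ j, j ≠ i ∧ x j = x'
  · obtain ⟨j, hj, rfl⟩ := hx
    refine ⟨y j, fun a b => ?_⟩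
    have e : ∀ (z : Fin n → Pt n) (a : Fin n), Function.update z i (z j) a =
        z (if a = i then j else a) := by
      intro z a
      by_cases ha : a = i
      · rw [if_pos ha, ha, Function.update_self]
      · rw [if_neg ha, Function.update_of_ne ha]
    rw [e, e, e, e]
    exact h _ _
  · push Not at hx
    obtain ⟨g, hg, hg'⟩ := exists_numbers y
    obtain ⟨j0, hj0⟩ : ∃ j0 : Fin n, j0 ≠ i := by
      have : Nontrivial (Fin n) := Fin.nontrivial_iff_two_le.mpr hn
      exact exists_ne i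
    set rep : Pt n → Fin n := fun p => if h : ∃ c, y c = p then h.choose else j0 with hrep
    have hrep' : ∀ a, y (rep (y a)) = y a := by
      intro a
      have h1 : ∃ c, y c = y a := ⟨a, rfl⟩
      have h2 : rep (y a) = h1.choose := dif_pos h1
      rw [h2]
      exact h1.choose_spec
    have hτ : ∀ a b, a ≠ i → b ≠ i → y a = y b →
        nl π F (x'.L (x a)) (g (rep (y a))) = nl π F (x'.L (x b)) (g (rep (y b))) := by
      intro a b _ _ hab
      rw [((h a b).1).mpr hab, hab]
    have hτ' : ∀ a b, a ≠ i → b ≠ i → y a ≠ y b →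
        Allowed (nl π F (x'.L (x a)) (g (rep (y a)))) (nl π F (x'.L (x b)) (g (rep (y b))))
          ((y a).L (y b)) := by
      intro a b ha hb hab
      have hab' : x a ≠ x b := fun h1 => hab ((h a b).1.mp h1)
      refine allowed_nl hπ ?_ ((h a b).2 hab') (hg' _ _ _) (hg' _ _ _)
        (Pt.allowed x' (x a) (x b) (Ne.symm (hx a ha)) (Ne.symm (hx b hb)) hab')
      intro h1
      have h2 := hg h1
      apply hab
      rw [← hrep' a, ← hrep' b, h2]
    set ρ : Fin n → Fin n := fun j => if j = i then j0 else j with hρ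
    have hρi : ∀ j, ρ j ≠ i := by
      intro j
      by_cases hj : j = i
      · simp only [hρ, if_pos hj]
        exact hj0
      · simp only [hρ, if_neg hj]
        exact hj
    have hρj : ∀ j, j ≠ i → ρ j = j := fun j hj => if_neg hj
    obtain ⟨y', hy1, hy2⟩ := Pt.ext (fun j => y (ρ j))
      (fun j => nl π F (x'.L (x (ρ j))) (g (rep (y (ρ j)))))
      (fun a b hab => hτ _ _ (hρi a) (hρi b) hab)
      (fun a b hab => hτ' _ _ (hρi a) (hρi b) hab)
    have hy1' : ∀ j, j ≠ i → y' ≠ y j := by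
      intro j hj h1
      have h2 := hy1 j
      simp only [hρj j hj] at h2
      exact h2 h1
    have hy2' : ∀ j, j ≠ i → LRel π F (x'.L (x j)) (y'.L (y j)) := by
      intro j hj
      have h2 := hy2 j
      simp only [hρj j hj] at h2
      rw [h2]
      exact nl_rel hπ _ _
    refine ⟨y', fun a b => ?_⟩
    by_cases ha : a = i
    · by_cases hb : b = i
      · subst ha
        subst hb
        exact ⟨by simp, fun h1 => absurd rfl h1⟩
      · subst ha
        rw [Function.update_self, Function.update_self, Function.update_of_ne hb,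
          Function.update_of_ne hb]
        exact ⟨⟨fun h1 => absurd h1.symm (hx b hb), fun h1 => absurd h1 (hy1' b hb)⟩,
          fun _ => hy2' b hb⟩
    · by_cases hb : b = i
      · subst hb
        rw [Function.update_self, Function.update_self, Function.update_of_ne ha,
          Function.update_of_ne ha]
        refine ⟨⟨fun h1 => absurd h1 (hx a ha), fun h1 => absurd h1.symm (hy1' a ha)⟩,
          fun _ => ?_⟩
        rw [Pt.L_symm (x a), Pt.L_symm (y a)]
        exact hy2' a ha
      · rw [Function.update_of_ne ha, Function.update_of_ne ha, Function.update_of_ne hb,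
          Function.update_of_ne hb]
        exact h a b

/-- Back and forth. -/
theorem Rel.steps {π : Equiv.Perm (Option ℕ)} {F : Finset ℕ} (hπ : FixF π F) (hn : 2 ≤ n)
    (T : Finset (Fin n)) : ∀ {x y : Fin n → Pt n}, Rel π F x y → ∀ x' : Fin n → Pt n,
    (∀ i, i ∉ T → x' i = x i) → ∃ y' : Fin n → Pt n, Rel π F x' y' ∧ ∀ i, i ∉ T → y' i = y i := by
  classical
  induction T using Finset.induction_on with
  | empty =>
    intro x y h x' hx'
    have h1 : x' = x := funext fun i => hx' i (Finset.notMem_empty i)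
    rw [h1]
    exact ⟨y, h, fun _ _ => rfl⟩
  | insert i T hi ih =>
    intro x y h x' hx'
    obtain ⟨y1, h1⟩ := h.step hπ hn i (x' i)
    obtain ⟨y', h2, h3⟩ := ih h1 x' (by
      intro j hj
      by_cases hji : j = i
      · rw [hji, Function.update_self]
      · rw [Function.update_of_ne hji]
        exact hx' j (by simp [hji, hj]))
    refine ⟨y', h2, fun j hj => ?_⟩
    rw [Finset.mem_insert, not_or] at hj
    rw [h3 j hj.2, Function.update_of_ne hj.1]

/-- Every tuple corresponds to some tuple, for every permutation. -/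
theorem exists_rel {π : Equiv.Perm (Option ℕ)} {F : Finset ℕ} (hπ : FixF π F) (hn : 2 ≤ n)
    (x : Fin n → Pt n) : ∃ y, Rel π F x y := by
  obtain ⟨p⟩ := (inferInstance : Nonempty (Pt n))
  have h : Rel π F (fun _ : Fin n => p) (fun _ : Fin n => p) :=
    fun i j => ⟨Iff.rfl, fun h => absurd rfl h⟩
  obtain ⟨y, hy, _⟩ := h.steps hπ hn Finset.univ x fun i hi => absurd (Finset.mem_univ i) hi
  exact ⟨y, hy⟩

end Pool.Agent.Q216.UU
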