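import Mathlib

/-!
# Cylindric algebras, representability, complex algebras, ultraproducts: definitions
-/

set_option autoImplicit false

namespace Pool.Agent.Q216.UU

/-- An algebra of the similarity type of cylindric algebras of dimension `n` with a Boolean
reduct: a Boolean algebra with cylindrifications `c i` and diagonal elements `d i j`. -/
class CylOps (n : outParam ℕ) (A : Type*) extends BooleanAlgebra A where
  /-- cylindrifications -/
  c : Fin n → A → A
  /-- diagonal elements -/
  d : Fin n → Fin n → A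

open CylOps

/-- The axioms of cylindric algebras (Henkin, Monk, Tarski). -/
structure IsCA (n : ℕ) (A : Type*) [CylOps n A] : Prop where
  c_bot : ∀ i : Fin n, c i (⊥ : A) = ⊥
  le_c : ∀ (i : Fin n) (x : A), x ≤ c i x
  c_inf : ∀ (i : Fin n) (x y : A), c i (x ⊓ c i y) = c i x ⊓ c i y
  c_comm : ∀ (i j : Fin n) (x : A), c i (c j x) = c j (c i x)
  d_self : ∀ i : Fin n, (d i i : A) = ⊤
  d_comp : ∀ i j k : Fin n, k ≠ i → k ≠ j → (d i j : A) = c k (d i k ⊓ d k j)
  c_compl : ∀ (i j : Fin n) (x : A), i ≠ j → c i (d i j ⊓ x) ⊓ c i (d i j ⊓ xᶜ) = ⊥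

/-- `X` cylindrified in the coordinate `i`, in the full cylindric set algebra with base `U`. -/
def setC {n : ℕ} {U : Type*} (i : Fin n) (X : Set (Fin n → U)) : Set (Fin n → U) :=
  {a | ∃ b ∈ X, ∀ j, j ≠ i → a j = b j}

/-- The diagonal elements of the full cylindric set algebra with base `U`. -/
def setD {n : ℕ} {U : Type*} (i j : Fin n) : Set (Fin n → U) := {a | a i = a j}

/-- `A` is isomorphic to a subalgebra of a product of full cylindric set algebras of dimension
`n` (that is, to a subdirect product of cylindric set algebras). -/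
def Representable.{u, v, w} (n : ℕ) (A : Type u) [CylOps n A] : Prop :=
  ∃ (I : Type v) (U : I → Type w) (h : ∀ i, A → Set (Fin n → U i)),
    (∀ x y : A, (∀ i, h i x = h i y) → x = y) ∧
    (∀ (i : I) (x y : A), h i (x ⊓ y) = h i x ∩ h i y) ∧
    (∀ (i : I) (x : A), h i xᶜ = (h i x)ᶜ) ∧
    (∀ (i : I) (k : Fin n) (x : A), h i (c k x) = setC k (h i x)) ∧
    (∀ (i : I) (k l : Fin n), h i (d k l) = setD k l)

/-- The complex algebra of the atom structure of `A`: all sets of atoms of `A`. -/
def CmAt (A : Type*) [BooleanAlgebra A] : Type _ := Set {a : A // IsAtom a}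

/-- The operations of the complex algebra. -/
instance (n : ℕ) (A : Type*) [CylOps n A] : CylOps n (CmAt A) where
  toBooleanAlgebra := inferInstanceAs (BooleanAlgebra (Set {a : A // IsAtom a}))
  c i X := ({a | ∃ b ∈ (show Set {a : A // IsAtom a} from X), a.1 ≤ c i b.1} :
    Set {a : A // IsAtom a})
  d i j := ({a | a.1 ≤ d i j} : Set {a : A // IsAtom a})

/-- The class `WRCA n` of the atomic representable cylindric algebras. -/
def WRCA.{u, v, w} (n : ℕ) (A : Type u) [CylOps n A] : Prop :=
  IsCA n A ∧ IsAtomic A ∧ Representable.{u, v, w} n A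

/-- The class `SRCA n` of the strongly representable atomic cylindric algebras. -/
def SRCA.{u, v, w} (n : ℕ) (A : Type u) [CylOps n A] : Prop :=
  IsCA n A ∧ IsAtomic A ∧ Representable.{u, v, w} n (CmAt A)

/-- `B` is (isomorphic to) the ultraproduct of the algebras `A i` modulo the ultrafilter `U`: there
is a homomorphism of the direct product onto `B` which identifies two elements if and only if they
agree on a set of `U`. -/
def IsUltraproduct.{u, v, w} (n : ℕ) {I : Type u} (U : Ultrafilter I) (A : I → Type v)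
    [∀ i, CylOps n (A i)] (B : Type w) [CylOps n B] : Prop :=
  ∃ p : (∀ i, A i) → B, Function.Surjective p ∧
    (∀ x y, p x = p y ↔ ∀ᶠ i in (U : Filter I), x i = y i) ∧
    (∀ x y, p (fun i => x i ⊓ y i) = p x ⊓ p y) ∧
    (∀ x, p (fun i => (x i)ᶜ) = (p x)ᶜ) ∧
    (∀ (k : Fin n) (x), p (fun i => c k (x i)) = c k (p x)) ∧
    (∀ k l : Fin n, p (fun _ => d k l) = d k l)

/-- The class `Ur SRCA n`: some ultrapower of `A` is strongly representable. -/
def UrSRCA.{u, v, w, x, y} (n : ℕ) (A : Type u) [CylOps n A] : Prop :=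
  ∃ (J : Type v) (W : Ultrafilter J) (C : Type w) (_ : CylOps n C),
    IsUltraproduct n W (fun _ => A) C ∧ SRCA.{w, x, y} n C

/-- The class `Up Ur SRCA n`: ultraproducts of ultraroots of strongly representable algebras. -/
def UpUrSRCA.{u, v, w, x, y, z, t} (n : ℕ) (A : Type u) [CylOps n A] : Prop :=
  ∃ (I : Type v) (U : Ultrafilter I) (B : I → Type w) (_ : ∀ i, CylOps n (B i)),
    IsUltraproduct n U B A ∧ ∀ i, UrSRCA.{w, x, y, z, t} n (B i)

/-! ### Elementary notions -/

section Notions

variable {n : ℕ} {B : Type*} [CylOps n B]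

/-- Cylindrification in all the coordinates of a list. -/
def cl (l : List (Fin n)) (x : B) : B := l.foldr c x

end Notions

end Pool.Agent.Q216.UU
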