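import Mathlib
import Pool.Agent.Q216.UU.Defs

/-!
# Cylindrifications as closure operators; labels
-/

set_option autoImplicit false

namespace Pool.Agent.Q216.UU

open CylOps

/-- A quantifier on a Boolean algebra. -/
structure Clo {B : Type*} [BooleanAlgebra B] (K : B → B) : Prop where
  bot : K ⊥ = ⊥
  ext : ∀ x, x ≤ K x
  inf : ∀ x y, K (x ⊓ K y) = K x ⊓ K y

namespace Clo

variable {B : Type*} [BooleanAlgebra B] {K : B → B} (hK : Clo K)
include hK

theorem mono {x y : B} (h : x ≤ y) : K x ≤ K y := by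
  have h1 : x ⊓ K y = x := inf_eq_left.mpr (h.trans (hK.ext y))
  have h2 := hK.inf x y
  rw [h1] at h2
  rw [h2]
  exact inf_le_right

theorem idem (x : B) : K (K x) = K x := by
  have h1 := hK.inf ⊤ x
  have h2 : K (⊤ : B) = ⊤ := top_le_iff.mp (hK.ext ⊤)
  rw [top_inf_eq, h2, top_inf_eq] at h1
  exact h1

theorem disj_iff {x y : B} : x ⊓ K y = ⊥ ↔ K x ⊓ y = ⊥ := by
  constructor
  · intro h
    have h1 := hK.inf x y
    rw [h, hK.bot] at h1
    exact le_bot_iff.mp ((inf_le_inf_left _ (hK.ext y)).trans h1.symm.le)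
  · intro h
    have h1 := hK.inf y x
    rw [inf_comm y, h, hK.bot] at h1
    rw [inf_comm] at h1
    exact le_bot_iff.mp ((inf_le_inf_right _ (hK.ext x)).trans h1.symm.le)

omit hK in
theorem _root_.Pool.Agent.Q216.UU.atom_le_iff {a z : B} (ha : IsAtom a) : a ≤ z ↔ a ⊓ z ≠ ⊥ := by
  constructor
  · intro h h1
    rw [inf_eq_left.mpr h] at h1
    exact ha.1 h1
  · intro h
    rcases ha.le_iff.mp (inf_le_left : a ⊓ z ≤ a) with h1 | h1
    · exact absurd h1 h
    · exact inf_eq_left.mp h1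

theorem atom_le_symm {a b : B} (ha : IsAtom a) (hb : IsAtom b) (h : a ≤ K b) : b ≤ K a := by
  rw [atom_le_iff hb]
  rw [atom_le_iff ha] at h
  intro h1
  apply h
  rw [hK.disj_iff, inf_comm]
  exact h1

theorem eq_of_atom_le {a b : B} (ha : IsAtom a) (hb : IsAtom b) (h : a ≤ K b) : K a = K b := by
  apply le_antisymm
  · have := hK.mono h
    rwa [hK.idem] at this
  · have := hK.mono (hK.atom_le_symm ha hb h)
    rwa [hK.idem] at this

end Clo

variable {n : ℕ} {B : Type*} [CylOps n B]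

theorem IsCA.clo_c (h : IsCA n B) (i : Fin n) : Clo (c i : B → B) :=
  ⟨h.c_bot i, h.le_c i, h.c_inf i⟩

theorem IsCA.cl_comm (h : IsCA n B) (i : Fin n) (l : List (Fin n)) (x : B) :
    c i (cl l x) = cl l (c i x) := by
  induction l with
  | nil => rfl
  | cons j l ih =>
    change c i (c j (cl l x)) = c j (cl l (c i x))
    rw [h.c_comm, ih]

theorem IsCA.clo_cl (h : IsCA n B) (l : List (Fin n)) : Clo (cl l : B → B) := by
  induction l with
  | nil => exact ⟨rfl, fun x => le_rfl, fun x y => rfl⟩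
  | cons j l ih =>
    refine ⟨?_, ?_, ?_⟩
    · change c j (cl l ⊥) = ⊥
      rw [ih.bot, h.c_bot]
    · intro x
      exact (ih.ext x).trans (h.le_c j _)
    · intro x y
      change c j (cl l (x ⊓ c j (cl l y))) = c j (cl l x) ⊓ c j (cl l y)
      rw [h.cl_comm j l y, ih.inf, ← h.cl_comm j l y, h.c_inf]

theorem IsCA.c_le_cl (h : IsCA n B) {i : Fin n} {l : List (Fin n)} (hi : i ∈ l) (x : B) :
    c i x ≤ cl l x := by
  induction l with
  | nil => simp at hi
  | cons j l ih =>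
    change c i x ≤ c j (cl l x)
    rcases List.mem_cons.mp hi with h1 | h1
    · rw [h1]
      exact (h.clo_c j).mono ((h.clo_cl l).ext x)
    · exact (ih h1).trans (h.le_c j _)

/-! ### The coordinates 0, 1, 2 -/

variable {k : ℕ}

/-- coordinate 0 -/
def i0 : Fin (k + 3) := ⟨0, by omega⟩
/-- coordinate 1 -/
def i1 : Fin (k + 3) := ⟨1, by omega⟩
/-- coordinate 2 -/
def i2 : Fin (k + 3) := ⟨2, by omega⟩

theorem i01 : (i0 : Fin (k + 3)) ≠ i1 := by simp [i0, i1]
theorem i02 : (i0 : Fin (k + 3)) ≠ i2 := by simp [i0, i2]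
theorem i12 : (i1 : Fin (k + 3)) ≠ i2 := by simp [i1, i2]

/-- The other coordinates. -/
def lst (k : ℕ) : List (Fin (k + 3)) := (List.finRange (k + 3)).filter (fun i => 2 ≤ i.val)

theorem mem_lst {i : Fin (k + 3)} : i ∈ lst k ↔ i ≠ i0 ∧ i ≠ i1 := by
  simp only [lst, List.mem_filter, List.mem_finRange, true_and, decide_eq_true_eq, ne_eq,
    Fin.ext_iff, i0, i1]
  omega

variable {B : Type*} [CylOps (k + 3) B]

/-- `u` is a label: the cylindrification in the coordinates `2, 3, …` of an atom disjoint from the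
diagonal `d 0 1`. -/
def IsLab (u : B) : Prop := ∃ a : B, IsAtom a ∧ a ≤ (d i0 i1)ᶜ ∧ u = cl (lst k) a

/-- `x` moved to the coordinates `0, 2`. -/
def up02 (x : B) : B := c i1 (d i1 i2 ⊓ x)

/-- `x` moved to the coordinates `1, 2`. -/
def up12 (x : B) : B := c i0 (d i0 i1 ⊓ up02 x)

/-- There is a triangle with edges `u`, `v`, `w`. -/
def Tri (u v w : B) : Prop := u ⊓ up12 v ⊓ up02 w ≠ ⊥

/-- The property which is transferred to ultraproducts and ultraroots. -/
def Theta (S N m : ℕ) (B : Type*) [CylOps (k + 3) B] : Prop :=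
  ∃ σ : Fin S → B,
    (∀ u : B, IsLab u → ∃ s, u ≤ σ s) ∧
    (∀ u : B, IsLab u → c i1 u = ⊤ ∧ ¬ Tri u u u) ∧
    (∀ s, ∀ u v : B, IsLab u → IsLab v → u ≤ σ s → v ≤ σ s → Tri u v v → Tri v u u) ∧
    (∀ s, ∀ u v w : B, IsLab u → IsLab v → IsLab w → u ≤ σ s → v ≤ σ s → w ≤ σ s →
      Tri u v v → Tri v w w → u = w ∨ Tri u w w) ∧
    (∀ s, ∀ u v w : B, IsLab u → IsLab v → IsLab w → u ≤ σ s → v ≤ σ s → w ≤ σ s →
      Tri u v w → Tri u v v ∨ Tri v w w ∨ Tri u w w) ∧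
    (∀ s, ∀ u : Fin (N + 1) → B, (∀ i, IsLab (u i) ∧ u i ≤ σ s) →
      (∀ i j, i ≠ j → u i ≠ u j) → ∃ i j, i ≠ j ∧ ¬ Tri (u i) (u j) (u j)) ∧
    (∃ u : Fin m → B, (∀ i, IsLab (u i)) ∧ ∀ i j, i ≠ j → u i ≠ u j)

theorem IsLab.eq_of_atom (h : IsCA (k + 3) B) {u a : B} (hu : IsLab u) (ha : IsAtom a)
    (hau : a ≤ u) : u = cl (lst k) a := by
  obtain ⟨b, hb, hbd, rfl⟩ := hu
  exact ((h.clo_cl (lst k)).eq_of_atom_le ha hb hau).symm

theorem isLab_cl {a : B} (ha : IsAtom a) (had : a ≤ (d i0 i1)ᶜ) : IsLab (cl (lst k) a) :=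
  ⟨a, ha, had, rfl⟩

end Pool.Agent.Q216.UU
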