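import Mathlib
import Pool.Agent.Q216.UU.BF
import Pool.Agent.Q216.UU.Clo

/-!
# The algebra of the invariant relations of the homogeneous graph
-/

set_option autoImplicit false

namespace Pool.Agent.Q216.UU

open CylOps

/-! ### Full cylindric set algebras -/

section Full

variable {n : ℕ} {U : Type*}

theorem mem_setC {i : Fin n} {X : Set (Fin n → U)} {z : Fin n → U} :
    z ∈ setC i X ↔ ∃ p : U, Function.update z i p ∈ X := by
  constructor
  · rintro ⟨b, hb, h⟩
    refine ⟨b i, ?_⟩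
    have h1 : Function.update z i (b i) = b := by
      funext j
      by_cases hj : j = i
      · rw [hj, Function.update_self]
      · rw [Function.update_of_ne hj]
        exact h j hj
    rwa [h1]
  · rintro ⟨p, hp⟩
    exact ⟨_, hp, fun j hj => (Function.update_of_ne hj _ _).symm⟩

theorem setC_empty (i : Fin n) : setC i (∅ : Set (Fin n → U)) = ∅ := by
  ext z
  rw [mem_setC]
  simp

theorem subset_setC (i : Fin n) (X : Set (Fin n → U)) : X ⊆ setC i X :=
  fun z hz => ⟨z, hz, fun _ _ => rfl⟩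

theorem setC_inter (i : Fin n) (X Y : Set (Fin n → U)) :
    setC i (X ∩ setC i Y) = setC i X ∩ setC i Y := by
  ext z
  simp only [mem_setC, Set.mem_inter_iff, Function.update_idem]
  constructor
  · rintro ⟨p, h1, q, h2⟩
    exact ⟨⟨p, h1⟩, q, h2⟩
  · rintro ⟨⟨p, h1⟩, q, h2⟩
    exact ⟨p, h1, q, h2⟩

theorem setC_comm (i j : Fin n) (X : Set (Fin n → U)) :
    setC i (setC j X) = setC j (setC i X) := by
  by_cases hij : i = j
  · rw [hij]
  · ext z
    simp only [mem_setC]
    constructor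
    · rintro ⟨p, q, h⟩
      refine ⟨q, p, ?_⟩
      rwa [Function.update_comm (Ne.symm hij)]
    · rintro ⟨p, q, h⟩
      refine ⟨q, p, ?_⟩
      rwa [Function.update_comm hij]

theorem setD_self (i : Fin n) : (setD i i : Set (Fin n → U)) = Set.univ := by
  ext z
  simp [setD]

theorem setD_comp (i j l : Fin n) (h1 : l ≠ i) (h2 : l ≠ j) :
    (setD i j : Set (Fin n → U)) = setC l (setD i l ∩ setD l j) := by
  ext z
  rw [mem_setC]
  constructor
  · intro h
    have h' : z i = z j := h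
    refine ⟨z i, ?_, ?_⟩
    · change Function.update z l (z i) i = Function.update z l (z i) l
      rw [Function.update_self, Function.update_of_ne (Ne.symm h1)]
    · change Function.update z l (z i) l = Function.update z l (z i) j
      rw [Function.update_self, Function.update_of_ne (Ne.symm h2), h']
  · rintro ⟨p, h3, h4⟩
    have h3' : Function.update z l p i = Function.update z l p l := h3
    have h4' : Function.update z l p l = Function.update z l p j := h4
    have h5 := h3'.trans h4'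
    rw [Function.update_of_ne (Ne.symm h1), Function.update_of_ne (Ne.symm h2)] at h5
    exact h5

theorem setC_compl (i j : Fin n) (X : Set (Fin n → U)) (h : i ≠ j) :
    setC i (setD i j ∩ X) ∩ setC i (setD i j ∩ Xᶜ) = ∅ := by
  ext z
  simp only [Set.mem_inter_iff, mem_setC, Set.mem_empty_iff_false, iff_false, not_and]
  rintro ⟨p, h1, h2⟩ ⟨q, h3, h4⟩
  have h1' : Function.update z i p i = Function.update z i p j := h1
  have h3' : Function.update z i q i = Function.update z i q j := h3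
  rw [Function.update_self, Function.update_of_ne (Ne.symm h)] at h1' h3'
  rw [h1'] at h2
  rw [h3'] at h4
  exact h4 h2

end Full

/-! ### The algebra -/

/-- Invariant relations. -/
def Inv {n : ℕ} (Y : Set (Fin n → Pt n)) : Prop :=
  ∃ F : Finset ℕ, ∀ π, FixF π F → ∀ x y, Rel π F x y → x ∈ Y → y ∈ Y

theorem Inv.compl {n : ℕ} {Y : Set (Fin n → Pt n)} (h : Inv Y) : Inv Yᶜ := by
  obtain ⟨F, hF⟩ := h
  refine ⟨F, fun π hπ x y hxy hx hy => hx ?_⟩
  exact hF π⁻¹ hπ.symm y x (hxy.symm hπ) hy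

theorem Inv.inter {n : ℕ} {Y Z : Set (Fin n → Pt n)} (h : Inv Y) (h' : Inv Z) :
    Inv (Y ∩ Z) := by
  classical
  obtain ⟨F, hF⟩ := h
  obtain ⟨G, hG⟩ := h'
  refine ⟨F ∪ G, fun π hπ x y hxy hx => ⟨?_, ?_⟩⟩
  · exact hF π (fun l hl => hπ l (Finset.mem_union_left _ hl)) x y
      (hxy.mono Finset.subset_union_left) hx.1
  · exact hG π (fun l hl => hπ l (Finset.mem_union_right _ hl)) x y
      (hxy.mono Finset.subset_union_right) hx.2

theorem inv_empty {n : ℕ} : Inv (∅ : Set (Fin n → Pt n)) :=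
  ⟨∅, fun _ _ _ _ _ h => h⟩

theorem Inv.union {n : ℕ} {Y Z : Set (Fin n → Pt n)} (h : Inv Y) (h' : Inv Z) :
    Inv (Y ∪ Z) := by
  have h1 := (h.compl.inter h'.compl).compl
  rwa [Set.compl_inter, compl_compl, compl_compl] at h1

theorem inv_setD {n : ℕ} (i j : Fin n) : Inv (setD i j : Set (Fin n → Pt n)) :=
  ⟨∅, fun _ _ _ _ h hx => (h i j).1.mp hx⟩

theorem Inv.setC {n : ℕ} (hn : 2 ≤ n) {Y : Set (Fin n → Pt n)} (h : Inv Y) (i : Fin n) :
    Inv (setC i Y) := by
  obtain ⟨F, hF⟩ := h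
  refine ⟨F, fun π hπ x y hxy hx => ?_⟩
  rw [mem_setC] at hx ⊢
  obtain ⟨p, hp⟩ := hx
  obtain ⟨q, hq⟩ := hxy.step hπ hn i p
  exact ⟨q, hF π hπ _ _ hq hp⟩

/-- The Boolean algebra of the invariant relations. -/
def invAlg (n : ℕ) : BooleanSubalgebra (Set (Fin n → Pt n)) where
  carrier := {Y | Inv Y}
  supClosed' := fun _ h _ h' => Inv.union h h'
  infClosed' := fun _ h _ h' => Inv.inter h h'
  compl_mem' := fun h => Inv.compl h
  bot_mem' := inv_empty

/-- The algebra. -/
def Al (k : ℕ) : Type := ↥(invAlg (k + 3))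

variable {k : ℕ}

instance : CylOps (k + 3) (Al k) where
  toBooleanAlgebra := inferInstanceAs (BooleanAlgebra ↥(invAlg (k + 3)))
  c i Y := ⟨setC i Y.1, Inv.setC (by omega) Y.2 i⟩
  d i j := ⟨setD i j, inv_setD i j⟩

namespace Al

theorem ext' {x y : Al k} (h : x.1 = y.1) : x = y := Subtype.ext h

theorem val_c (i : Fin (k + 3)) (x : Al k) : (c i x).1 = setC i x.1 := rfl
theorem val_d (i j : Fin (k + 3)) : (d i j : Al k).1 = setD i j := rfl
theorem val_inf (x y : Al k) : (x ⊓ y).1 = x.1 ∩ y.1 := rfl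
theorem val_compl (x : Al k) : (xᶜ).1 = (x.1)ᶜ := rfl
theorem val_bot : (⊥ : Al k).1 = ∅ := rfl
theorem val_top : (⊤ : Al k).1 = Set.univ := rfl
theorem le_def (x y : Al k) : x ≤ y ↔ x.1 ⊆ y.1 := Iff.rfl

theorem isCA : IsCA (k + 3) (Al k) where
  c_bot i := ext' (setC_empty i)
  le_c i x := subset_setC i x.1
  c_inf i x y := ext' (setC_inter i x.1 y.1)
  c_comm i j x := ext' (setC_comm i j x.1)
  d_self i := ext' (setD_self i)
  d_comp i j l h1 h2 := ext' (setD_comp i j l h1 h2)
  c_compl i j x h := ext' (setC_compl i j x.1 h)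

theorem representable : Representable.{0, 0, 0} (k + 3) (Al k) :=
  ⟨Unit, fun _ => Pt (k + 3), fun _ x => x.1, fun _ _ h => ext' (h ()), fun _ _ _ => rfl,
    fun _ _ => rfl, fun _ _ _ => rfl, fun _ _ _ => rfl⟩

end Al

/-! ### Atoms -/

section Atoms

variable {n : ℕ}

/-- No label is `∞`. -/
def NoInf (x : Fin n → Pt n) : Prop := ∀ i j, x i ≠ x j → ((x i).L (x j)).2 ≠ none

/-- The tuples isomorphic to `x`. -/
def cls (x : Fin n → Pt n) : Set (Fin n → Pt n) :=
  {z | ∀ i j, (x i = x j ↔ z i = z j) ∧ (x i ≠ x j → (z i).L (z j) = (x i).L (x j))}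

open Classical in
/-- The indices which occur in `x`. -/
noncomputable def idx (x : Fin n → Pt n) : Finset ℕ :=
  (Finset.univ : Finset (Fin n × Fin n)).biUnion
    fun p => (ind ((x p.1).L (x p.2))).toFinset

theorem mem_idx {x : Fin n → Pt n} {i j : Fin n} {l : ℕ} (h : ind ((x i).L (x j)) = some l) :
    l ∈ idx x := by
  unfold idx
  rw [Finset.mem_biUnion]
  exact ⟨(i, j), Finset.mem_univ _, by simp only; rw [h]; simp⟩

theorem exists_ind {x : Fin n → Pt n} (hx : NoInf x) {i j : Fin n} (hij : x i ≠ x j) :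
    ∃ l ∈ idx x, ind ((x i).L (x j)) = some l := by
  have h1 : ind ((x i).L (x j)) ≠ none := fun h => hx i j hij (ind_eq_none.mp h)
  obtain ⟨l, hl⟩ := Option.ne_none_iff_exists'.mp h1
  exact ⟨l, mem_idx hl, hl⟩

theorem mem_cls_self (x : Fin n → Pt n) : x ∈ cls x := fun _ _ => ⟨Iff.rfl, fun _ => rfl⟩

theorem mem_cls_symm {x z : Fin n → Pt n} (h : z ∈ cls x) : x ∈ cls z :=
  fun i j => ⟨(h i j).1.symm, fun h1 => ((h i j).2 fun h2 => h1 ((h i j).1.mp h2)).symm⟩

theorem inv_cls {x : Fin n → Pt n} (hx : NoInf x) : Inv (cls x) := by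
  refine ⟨idx x, fun π _ z w hzw hz i j => ⟨(hz i j).1.trans (hzw i j).1, fun h1 => ?_⟩⟩
  have h2 : z i ≠ z j := fun h => h1 ((hz i j).1.mpr h)
  obtain ⟨l, hl, h3⟩ := exists_ind hx h1
  have h4 := (hz i j).2 h1
  rw [← h4] at h3 ⊢
  exact ((hzw i j).2 h2).fix l hl h3

theorem cls_subset {x : Fin n → Pt n} {Y : Set (Fin n → Pt n)} (hY : Inv Y) (hx : x ∈ Y) :
    cls x ⊆ Y := by
  intro z hz
  obtain ⟨F, hF⟩ := hY
  refine hF 1 (fix_one F) x z (fun i j => ⟨(hz i j).1, fun h1 => ?_⟩) hx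
  rw [(hz i j).2 h1]
  exact LRel.refl F _

theorem mem_cls_of_rel {x y : Fin n → Pt n} (hx : NoInf x) (h : Rel 1 (idx x) x y) :
    y ∈ cls x := by
  refine fun i j => ⟨(h i j).1, fun h1 => ?_⟩
  obtain ⟨l, hl, h2⟩ := exists_ind hx h1
  exact ((h i j).2 h1).fix l hl h2

theorem exists_noInf (hn : 2 ≤ n) {x : Fin n → Pt n} {Y : Set (Fin n → Pt n)} (hY : Inv Y)
    (hx : x ∈ Y) : ∃ y ∈ Y, NoInf y := by
  classical
  obtain ⟨F, hF⟩ := hY
  obtain ⟨l, hl⟩ := Infinite.exists_notMem_finset (F ∪ idx x)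
  rw [Finset.mem_union, not_or] at hl
  set π : Equiv.Perm (Option ℕ) := Equiv.swap none (some l) with hπd
  have hπ : FixF π F := by
    intro l' hl'
    refine Equiv.swap_apply_of_ne_of_ne (by simp) ?_
    intro h
    rw [Option.some.inj h] at hl'
    exact hl.1 hl'
  obtain ⟨y, hy⟩ := exists_rel hπ hn x
  refine ⟨y, hF π hπ x y hy hx, fun i j hij h => ?_⟩
  have h1 : x i ≠ x j := fun h2 => hij ((hy i j).1.mp h2)
  have h2 := ((hy i j).2 h1).ind
  rw [ind_eq_none.mpr h] at h2
  have h3 : ind ((x i).L (x j)) = some l := by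
    apply π.injective
    rw [← h2, hπd, Equiv.swap_apply_right]
  exact hl.2 (mem_idx h3)

end Atoms

namespace Al

/-- The atom which contains `x`. -/
def at' (x : Fin (k + 3) → Pt (k + 3)) (hx : NoInf x) : Al k := ⟨cls x, inv_cls hx⟩

theorem isAtom_at (x : Fin (k + 3) → Pt (k + 3)) (hx : NoInf x) : IsAtom (at' x hx) := by
  constructor
  · intro h
    have h1 : x ∈ (⊥ : Al k).1 := by
      rw [← h]
      exact mem_cls_self x
    exact h1
  · intro b hb
    by_contra hcon
    obtain ⟨z, hz⟩ : (b.1).Nonempty := by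
      rw [Set.nonempty_iff_ne_empty]
      intro h
      exact hcon (ext' h)
    have hzx : z ∈ cls x := (le_def _ _).mp hb.le hz
    have hxb : x ∈ b.1 := cls_subset b.2 hz (mem_cls_symm hzx)
    exact absurd (lt_of_le_of_lt ((le_def _ _).mpr (cls_subset b.2 hxb)) hb) (lt_irrefl _)

theorem exists_at {b : Al k} (hb : b ≠ ⊥) : ∃ x hx, at' x hx ≤ b := by
  obtain ⟨z, hz⟩ : (b.1).Nonempty := by
    rw [Set.nonempty_iff_ne_empty]
    intro h
    exact hb (ext' h)
  obtain ⟨x, hx, hx'⟩ := exists_noInf (by omega) b.2 hz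
  exact ⟨x, hx', cls_subset b.2 hx⟩

theorem isAtomic : IsAtomic (Al k) := by
  constructor
  intro b
  by_cases hb : b = ⊥
  · exact Or.inl hb
  · obtain ⟨x, hx, h⟩ := exists_at hb
    exact Or.inr ⟨_, isAtom_at x hx, h⟩

theorem eq_at {a : Al k} (ha : IsAtom a) : ∃ x hx, a = at' x hx := by
  obtain ⟨x, hx, h⟩ := exists_at ha.1
  refine ⟨x, hx, ?_⟩
  rcases ha.le_iff.mp h with h1 | h1
  · exact absurd h1 (isAtom_at x hx).1
  · exact h1.symm

/-! ### Labels -/

theorem mem_cl (l : List (Fin (k + 3))) (x : Al k) (z : Fin (k + 3) → Pt (k + 3)) :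
    z ∈ (cl l x).1 ↔ ∃ w ∈ x.1, ∀ i, i ∉ l → z i = w i := by
  induction l generalizing z with
  | nil =>
    constructor
    · intro h
      exact ⟨z, h, fun _ _ => rfl⟩
    · rintro ⟨w, hw, h⟩
      have h1 : z = w := funext fun i => h i List.not_mem_nil
      rw [h1]
      exact hw
  | cons j l ih =>
    change z ∈ (c j (cl l x)).1 ↔ _
    rw [val_c]
    constructor
    · rintro ⟨b, hb, h⟩
      obtain ⟨w, hw, h1⟩ := (ih b).mp hb
      refine ⟨w, hw, fun i hi => ?_⟩
      rw [List.mem_cons, not_or] at hi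
      rw [h i hi.1, h1 i hi.2]
    · rintro ⟨w, hw, h⟩
      refine ⟨Function.update z j (w j), (ih _).mpr ⟨w, hw, fun i hi => ?_⟩,
        fun i hi => (Function.update_of_ne hi _ _).symm⟩
      by_cases hij : i = j
      · rw [hij, Function.update_self]
      · rw [Function.update_of_ne hij]
        exact h i (by simp [hij, hi])

/-- The label `t`. -/
def E (t : Lb (k + 3)) (ht : t.2 ≠ none) : Al k :=
  ⟨{z | z i0 ≠ z i1 ∧ (z i0).L (z i1) = t}, by
    obtain ⟨l, hl⟩ := Option.ne_none_iff_exists'.mp (fun h => ht (ind_eq_none.mp h))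
    refine ⟨{l}, fun π _ x y h hx => ?_⟩
    obtain ⟨h1, h2⟩ : x i0 ≠ x i1 ∧ (x i0).L (x i1) = t := hx
    have h3 := ((h i0 i1).2 h1).fix l (Finset.mem_singleton_self l) (by rw [h2, hl])
    exact ⟨fun h4 => h1 ((h i0 i1).1.mpr h4), h3.trans h2⟩⟩

/-- The shade `s`. -/
def sh (s : Fin (2 * (k + 3) + 1)) : Al k :=
  ⟨{z | z i0 ≠ z i1 ∧ ((z i0).L (z i1)).1 = s}, by
    refine ⟨∅, fun π _ x y h hx => ?_⟩
    obtain ⟨h1, h2⟩ : x i0 ≠ x i1 ∧ ((x i0).L (x i1)).1 = s := hx
    exact ⟨fun h4 => h1 ((h i0 i1).1.mpr h4), ((h i0 i1).2 h1).shade.trans h2⟩⟩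

theorem mem_E {t : Lb (k + 3)} {ht : t.2 ≠ none} {z : Fin (k + 3) → Pt (k + 3)} :
    z ∈ (E t ht).1 ↔ z i0 ≠ z i1 ∧ (z i0).L (z i1) = t := Iff.rfl

theorem mem_sh {s : Fin (2 * (k + 3) + 1)} {z : Fin (k + 3) → Pt (k + 3)} :
    z ∈ (sh s).1 ↔ z i0 ≠ z i1 ∧ ((z i0).L (z i1)).1 = s := Iff.rfl

theorem cl_at (x : Fin (k + 3) → Pt (k + 3)) (hx : NoInf x) (h01 : x i0 ≠ x i1) :
    cl (lst k) (at' x hx) = E ((x i0).L (x i1)) (hx i0 i1 h01) := by
  apply ext'
  ext z
  rw [mem_cl, mem_E]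
  have e0 : (i0 : Fin (k + 3)) ∉ lst k := fun h => (mem_lst.mp h).1 rfl
  have e1 : (i1 : Fin (k + 3)) ∉ lst k := fun h => (mem_lst.mp h).2 rfl
  constructor
  · rintro ⟨w, hw, h⟩
    rw [h i0 e0, h i1 e1]
    exact ⟨fun h1 => h01 ((hw i0 i1).1.mpr h1), (hw i0 i1).2 h01⟩
  · rintro ⟨h1, h2⟩
    classical
    have hb : Rel 1 (idx x) (fun i : Fin (k + 3) => if i = i0 then x i0 else x i1)
        (fun i : Fin (k + 3) => if i = i0 then z i0 else z i1) := by
      intro i j
      by_cases hi : i = i0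
      · by_cases hj : j = i0
        · beta_reduce
          rw [if_pos hi, if_pos hj, if_pos hi, if_pos hj]
          exact ⟨⟨fun _ => rfl, fun _ => rfl⟩, fun h => absurd rfl h⟩
        · simp only [if_pos hi, if_neg hj]
          refine ⟨⟨fun h => absurd h h01, fun h => absurd h h1⟩, fun _ => ?_⟩
          rw [h2]
          exact LRel.refl _ _
      · by_cases hj : j = i0
        · simp only [if_neg hi, if_pos hj]
          refine ⟨⟨fun h => absurd h.symm h01, fun h => absurd h.symm h1⟩, fun _ => ?_⟩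
          rw [Pt.L_symm (z i1), h2, Pt.L_symm (x i1)]
          exact LRel.refl _ _
        · beta_reduce
          rw [if_neg hi, if_neg hj, if_neg hi, if_neg hj]
          exact ⟨⟨fun _ => rfl, fun _ => rfl⟩, fun h => absurd rfl h⟩
    obtain ⟨w, hw, hw'⟩ := hb.steps (fix_one _) (by omega)
      (Finset.univ.filter fun i => i ≠ i0 ∧ i ≠ i1) x (by
        intro i hi
        rw [Finset.mem_filter, not_and] at hi
        have hi' := hi (Finset.mem_univ i)
        by_cases h3 : i = i0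
        · rw [if_pos h3, h3]
        · rw [if_neg h3]
          by_cases h4 : i = i1
          · rw [h4]
          · exact absurd ⟨h3, h4⟩ hi')
    refine ⟨w, mem_cls_of_rel hx hw, fun i hi => ?_⟩
    rw [mem_lst] at hi
    have h5 := hw' i (by
      rw [Finset.mem_filter, not_and]
      exact fun _ => hi)
    rw [h5]
    by_cases h3 : i = i0
    · rw [if_pos h3, h3]
    · rw [if_neg h3]
      by_cases h4 : i = i1
      · rw [h4]
      · exact absurd ⟨h3, h4⟩ hi

theorem exists_pair (p : Pt (k + 3)) (t : Lb (k + 3)) : ∃ q, q ≠ p ∧ q.L p = t := by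
  obtain ⟨q, h1, h2⟩ := Pt.ext (fun _ : Fin (k + 3) => p) (fun _ => t) (fun _ _ _ => rfl)
    (fun _ _ h => absurd rfl h)
  exact ⟨q, h1 i0, h2 i0⟩

theorem isLab_E (t : Lb (k + 3)) (ht : t.2 ≠ none) : IsLab (E t ht : Al k) := by
  classical
  obtain ⟨p⟩ := (inferInstance : Nonempty (Pt (k + 3)))
  obtain ⟨q, hq, hqt⟩ := exists_pair p t
  set x : Fin (k + 3) → Pt (k + 3) := fun i => if i = i0 then q else p with hxd
  have hx0 : x i0 = q := if_pos rfl
  have hx1 : x i1 = p := if_neg (Ne.symm i01)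
  have hx : NoInf x := by
    intro i j hij
    by_cases hi : i = i0
    · by_cases hj : j = i0
      · exact absurd (by rw [hi, hj]) hij
      · simp only [hxd, if_pos hi, if_neg hj]
        rw [hqt]
        exact ht
    · by_cases hj : j = i0
      · simp only [hxd, if_neg hi, if_pos hj]
        rw [Pt.L_symm, hqt]
        exact ht
      · simp only [hxd, if_neg hi, if_neg hj] at hij
        exact absurd rfl hij
  have h01 : x i0 ≠ x i1 := by
    rw [hx0, hx1]
    exact hq
  refine ⟨at' x hx, isAtom_at x hx, ?_, ?_⟩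
  · rw [le_def, val_compl, val_d]
    intro z hz hz'
    exact h01 ((hz i0 i1).1.mpr hz')
  · rw [cl_at x hx h01]
    apply ext'
    ext z
    rw [mem_E, mem_E, hx0, hx1, hqt]

theorem isLab_iff {u : Al k} : IsLab u ↔ ∃ t ht, u = E t ht := by
  constructor
  · rintro ⟨a, ha, had, rfl⟩
    obtain ⟨x, hx, rfl⟩ := eq_at ha
    have h01 : x i0 ≠ x i1 := by
      intro h
      have h1 : x ∈ ((d i0 i1 : Al k)ᶜ).1 := (le_def _ _).mp had (mem_cls_self x)
      exact h1 h
    exact ⟨_, _, cl_at x hx h01⟩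
  · rintro ⟨t, ht, rfl⟩
    exact isLab_E t ht

theorem exists_mem_E (t : Lb (k + 3)) (ht : t.2 ≠ none) : ∃ z, z ∈ (E t ht : Al k).1 := by
  obtain ⟨a, ha, _, h⟩ := isLab_E t ht
  obtain ⟨x, hx, rfl⟩ := eq_at ha
  exact ⟨x, by rw [h, mem_cl]; exact ⟨x, mem_cls_self x, fun _ _ => rfl⟩⟩

theorem E_le_sh {t : Lb (k + 3)} {ht : t.2 ≠ none} {s : Fin (2 * (k + 3) + 1)} :
    (E t ht : Al k) ≤ sh s ↔ t.1 = s := by
  constructor
  · intro h
    obtain ⟨z, hz⟩ := exists_mem_E t ht
    have h1 := (le_def _ _).mp h hz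
    rw [mem_E] at hz
    rw [mem_sh, hz.2] at h1
    exact h1.2
  · intro h z hz
    have hz' := mem_E.mp hz
    exact mem_sh.mpr ⟨hz'.1, by rw [hz'.2, h]⟩

theorem E_inj {t t' : Lb (k + 3)} {ht : t.2 ≠ none} {ht' : t'.2 ≠ none}
    (h : (E t ht : Al k) = E t' ht') : t = t' := by
  obtain ⟨z, hz⟩ := exists_mem_E t ht
  have h1 := hz
  rw [h] at h1
  rw [mem_E] at hz h1
  exact hz.2.symm.trans h1.2

theorem mem_up02 (x : Al k) (z : Fin (k + 3) → Pt (k + 3)) :
    z ∈ (up02 x).1 ↔ Function.update z i1 (z i2) ∈ x.1 := by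
  unfold up02
  rw [val_c, mem_setC]
  constructor
  · rintro ⟨p, h1, h2⟩
    have h1' : Function.update z i1 p i1 = Function.update z i1 p i2 := h1
    rw [Function.update_self, Function.update_of_ne (Ne.symm i12)] at h1'
    rw [← h1']
    exact h2
  · intro h
    refine ⟨z i2, ?_, h⟩
    change Function.update z i1 (z i2) i1 = Function.update z i1 (z i2) i2
    rw [Function.update_self, Function.update_of_ne (Ne.symm i12)]

theorem mem_up12 (x : Al k) (z : Fin (k + 3) → Pt (k + 3)) :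
    z ∈ (up12 x).1 ↔ Function.update z i0 (z i1) ∈ (up02 x).1 := by
  unfold up12
  rw [val_c, mem_setC]
  constructor
  · rintro ⟨p, h1, h2⟩
    have h1' : Function.update z i0 p i0 = Function.update z i0 p i1 := h1
    rw [Function.update_self, Function.update_of_ne (Ne.symm i01)] at h1'
    rw [← h1']
    exact h2
  · intro h
    refine ⟨z i1, ?_, h⟩
    change Function.update z i0 (z i1) i0 = Function.update z i0 (z i1) i1
    rw [Function.update_self, Function.update_of_ne (Ne.symm i01)]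

theorem mem_up02_E {t : Lb (k + 3)} {ht : t.2 ≠ none} {z : Fin (k + 3) → Pt (k + 3)} :
    z ∈ (up02 (E t ht) : Al k).1 ↔ z i0 ≠ z i2 ∧ (z i0).L (z i2) = t := by
  rw [mem_up02, mem_E, Function.update_self, Function.update_of_ne i01]

theorem mem_up12_E {t : Lb (k + 3)} {ht : t.2 ≠ none} {z : Fin (k + 3) → Pt (k + 3)} :
    z ∈ (up12 (E t ht) : Al k).1 ↔ z i1 ≠ z i2 ∧ (z i1).L (z i2) = t := by
  rw [mem_up12, mem_up02_E, Function.update_self, Function.update_of_ne (Ne.symm i02)]

theorem tri_iff {a b e : Lb (k + 3)} {ha : a.2 ≠ none} {hb : b.2 ≠ none} {he : e.2 ≠ none} :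
    Tri (E a ha : Al k) (E b hb) (E e he) ↔ Allowed a e b := by
  unfold Tri
  constructor
  · intro h
    obtain ⟨z, hz⟩ : ((E a ha ⊓ up12 (E b hb) ⊓ up02 (E e he) : Al k).1).Nonempty := by
      rw [Set.nonempty_iff_ne_empty]
      intro h1
      exact h (ext' h1)
    rw [val_inf, val_inf, Set.mem_inter_iff, Set.mem_inter_iff, mem_E, mem_up12_E,
      mem_up02_E] at hz
    obtain ⟨⟨⟨h1, h2⟩, h3, h4⟩, h5, h6⟩ := hz
    have h7 := Pt.allowed (z i0) (z i1) (z i2) h1 h5 h3
    rwa [h2, h4, h6] at h7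
  · intro h h1
    classical
    obtain ⟨p⟩ := (inferInstance : Nonempty (Pt (k + 3)))
    obtain ⟨q, hq, hqt⟩ := exists_pair p b
    obtain ⟨r, hr1, hr2⟩ := Pt.ext (fun i : Fin (k + 3) => if i = i1 then p else q)
      (fun i => if i = i1 then a else e) (by
        intro i j hij
        by_cases hi : i = i1
        · by_cases hj : j = i1
          · simp only [if_pos hi, if_pos hj]
          · simp only [if_pos hi, if_neg hj] at hij
            exact absurd hij.symm hq
        · by_cases hj : j = i1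
          · simp only [if_neg hi, if_pos hj] at hij
            exact absurd hij hq
          · simp only [if_neg hi, if_neg hj]) (by
        intro i j hij
        by_cases hi : i = i1
        · by_cases hj : j = i1
          · simp only [if_pos hi, if_pos hj] at hij
            exact absurd rfl hij
          · simp only [if_pos hi, if_neg hj]
            rw [Pt.L_symm, hqt]
            exact h
        · by_cases hj : j = i1
          · simp only [if_neg hi, if_pos hj]
            rw [hqt]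
            exact h.swap12
          · simp only [if_neg hi, if_neg hj] at hij
            exact absurd rfl hij)
    have hp1 := hr1 i1
    have hp2 := hr1 i2
    have ht1 := hr2 i1
    have ht2 := hr2 i2
    simp only [if_true, if_neg (Ne.symm i12)] at hp1 hp2 ht1 ht2
    set z : Fin (k + 3) → Pt (k + 3) := fun i => if i = i0 then r else if i = i1 then p else q
      with hz
    have hz0 : z i0 = r := if_pos rfl
    have hz1 : z i1 = p := by
      simp only [hz, if_neg (Ne.symm i01), if_true]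
    have hz2 : z i2 = q := by
      simp only [hz, if_neg (Ne.symm i02), if_neg (Ne.symm i12)]
    have hmem : z ∈ (E a ha ⊓ up12 (E b hb) ⊓ up02 (E e he) : Al k).1 := by
      rw [val_inf, val_inf, Set.mem_inter_iff, Set.mem_inter_iff, mem_E, mem_up12_E,
        mem_up02_E, hz0, hz1, hz2]
      refine ⟨⟨⟨hp1, ht1⟩, Ne.symm hq, ?_⟩, hp2, ht2⟩
      rw [Pt.L_symm, hqt]
    rw [h1] at hmem
    exact hmem

end Al

end Pool.Agent.Q216.UU
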