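import Mathlib

/-!
# Ramsey's theorem for triangles and finitely many colours
-/

set_option autoImplicit false

namespace Pool.Agent.Q216.UU

theorem ramsey_aux {C : Type*} (q : ℕ) :
    ∃ m : ℕ, ∀ V : Finset ℕ, m ≤ V.card → ∀ (f : ℕ → ℕ → C) (K : Finset C), K.card ≤ q →
      (∀ i ∈ V, ∀ j ∈ V, i < j → f i j ∈ K) →
      ∃ i ∈ V, ∃ j ∈ V, ∃ l ∈ V, i < j ∧ j < l ∧ f i j = f j l ∧ f i j = f i l := by
  classical
  induction q with
  | zero =>
    refine ⟨2, fun V hV f K hK hf => ?_⟩
    exfalso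
    have hK0 : K = ∅ := Finset.card_eq_zero.mp (Nat.le_zero.mp hK)
    obtain ⟨a, ha, b, hb, hab⟩ := Finset.one_lt_card.mp (show 1 < V.card by omega)
    rcases lt_or_gt_of_ne hab with h | h
    · have := hf a ha b hb h
      rw [hK0] at this
      exact absurd this (Finset.notMem_empty _)
    · have := hf b hb a ha h
      rw [hK0] at this
      exact absurd this (Finset.notMem_empty _)
  | succ q ih =>
    obtain ⟨m, hm⟩ := ih
    refine ⟨(q + 1) * m + 2, fun V hV f K hK hf => ?_⟩
    have hne : V.Nonempty := by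
      rw [← Finset.card_pos]; omega
    set v := V.min' hne with hv
    have hvV : v ∈ V := V.min'_mem hne
    set V' := V.erase v with hV'
    have hcard : (q + 1) * m + 1 ≤ V'.card := by
      rw [hV', Finset.card_erase_of_mem hvV]; omega
    have hlt : ∀ w ∈ V', v < w := by
      intro w hw
      rw [hV', Finset.mem_erase] at hw
      exact lt_of_le_of_ne (V.min'_le w hw.2) (Ne.symm hw.1)
    have hmaps : ∀ w ∈ V', f v w ∈ K := fun w hw =>
      hf v hvV w (Finset.mem_of_mem_erase hw) (hlt w hw)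
    have hex : ∃ κ ∈ K, m < (V'.filter fun w => f v w = κ).card := by
      apply Finset.exists_lt_card_fiber_of_mul_lt_card_of_maps_to hmaps
      calc K.card * m ≤ (q + 1) * m := Nat.mul_le_mul_right _ hK
        _ < V'.card := by omega
    obtain ⟨κ, hκ, hW⟩ := hex
    set W := V'.filter fun w => f v w = κ with hWd
    by_cases hcase : ∃ i ∈ W, ∃ j ∈ W, i < j ∧ f i j = κ
    · obtain ⟨i, hi, j, hj, hij, hc⟩ := hcase
      rw [hWd, Finset.mem_filter] at hi hj
      refine ⟨v, hvV, i, Finset.mem_of_mem_erase hi.1, j, Finset.mem_of_mem_erase hj.1,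
        hlt i hi.1, hij, ?_, ?_⟩
      · rw [hi.2, hc]
      · rw [hi.2, hj.2]
    · push Not at hcase
      obtain ⟨i, hi, j, hj, l, hl, h1, h2, h3, h4⟩ := hm W (by omega) f (K.erase κ)
        (by rw [Finset.card_erase_of_mem hκ]; omega) (by
          intro i hi j hj hij
          rw [Finset.mem_erase]
          have hi' := (Finset.mem_filter.mp hi).1
          have hj' := (Finset.mem_filter.mp hj).1
          exact ⟨hcase i hi j hj hij, hf i (Finset.mem_of_mem_erase hi') j
            (Finset.mem_of_mem_erase hj') hij⟩)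
      have hsub : ∀ x ∈ W, x ∈ V := fun x hx =>
        Finset.mem_of_mem_erase (Finset.mem_filter.mp hx).1
      exact ⟨i, hsub i hi, j, hsub j hj, l, hsub l hl, h1, h2, h3, h4⟩

theorem ramsey (C : Type*) [Finite C] :
    ∃ m : ℕ, ∀ (V : Type) [Fintype V] [LinearOrder V], m ≤ Fintype.card V → ∀ f : V → V → C,
      ∃ i j l : V, i < j ∧ j < l ∧ f i j = f j l ∧ f i j = f i l := by
  classical
  have := Fintype.ofFinite C
  obtain ⟨m, hm⟩ := ramsey_aux (C := C) (Fintype.card C)
  refine ⟨max m 1, fun V _ _ hV f => ?_⟩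
  set n := Fintype.card V with hn
  have e : Fin n ≃o V := (Fintype.orderIsoFinOfCardEq V hn.symm)
  have hn0 : 0 < n := by omega
  have hV0 : Nonempty V := Fintype.card_pos_iff.mp hn0
  let g : ℕ → V := fun i => if h : i < n then e ⟨i, h⟩ else e ⟨0, hn0⟩
  obtain ⟨i, hi, j, hj, l, hl, h1, h2, h3, h4⟩ := hm (Finset.range n)
    (by rw [Finset.card_range]; omega) (fun i j => f (g i) (g j)) Finset.univ le_rfl
    (fun _ _ _ _ _ => Finset.mem_univ _)
  rw [Finset.mem_range] at hi hj hl
  refine ⟨g i, g j, g l, ?_, ?_, h3, h4⟩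
  · simp only [g, hi, hj, dif_pos]
    exact e.strictMono h1
  · simp only [g, hj, hl, dif_pos]
    exact e.strictMono h2

end Pool.Agent.Q216.UU
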