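import Mathlib
import Pool.Agent.Q216.UU.Clo
import Pool.Agent.Q216.UU.Ramsey

/-!
# Algebras with the property `Theta` are not strongly representable
-/

set_option autoImplicit false

namespace Pool.Agent.Q216.UU

open CylOps

theorem exists_inj {Y : Type*} (N : ℕ)
    (h : ¬ ∃ f : Fin (N + 1) → Y, Function.Injective f) :
    ∃ g : Y → Fin (N + 1), Function.Injective g := by
  rcases finite_or_infinite Y with hf | hi
  · have := Fintype.ofFinite Y
    rcases Nat.lt_or_ge N (Fintype.card Y) with h1 | h1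
    · exfalso
      apply h
      exact ⟨fun i => (Fintype.equivFin Y).symm (Fin.castLE h1 i),
        (Fintype.equivFin Y).symm.injective.comp (Fin.castLE_injective h1)⟩
    · exact ⟨fun y => Fin.castLE (Nat.le_succ_of_le h1) (Fintype.equivFin Y y),
        (Fin.castLE_injective _).comp (Fintype.equivFin Y).injective⟩
  · exfalso
    apply h
    exact ⟨fun i => Infinite.natEmbedding Y i,
      (Infinite.natEmbedding Y).injective.comp Fin.val_injective⟩

theorem exists_num {X : Type*} (r : Setoid X) (N : ℕ)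
    (h : ∀ f : Fin (N + 1) → X, Function.Injective f → ∃ i j, ¬ r (f i) (f j)) :
    ∃ num : X → Fin (N + 1), ∀ x y, r x y → num x = num y → x = y := by
  have h1 : ∀ q : Quotient r, ∃ g : {x : X // Quotient.mk r x = q} → Fin (N + 1),
      Function.Injective g := by
    intro q
    apply exists_inj
    rintro ⟨f, hf⟩
    obtain ⟨i, j, hij⟩ := h (fun i => (f i).1) (Subtype.val_injective.comp hf)
    exact hij (Quotient.exact ((f i).2.trans (f j).2.symm))
  choose g hg using h1
  refine ⟨fun x => g (Quotient.mk r x) ⟨x, rfl⟩, fun x y hxy hn => ?_⟩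
  have hq : Quotient.mk r x = Quotient.mk r y := Quotient.sound hxy
  have h2 : ∀ q, ∀ (hx : Quotient.mk r x = q) (hy : Quotient.mk r y = q),
      g (Quotient.mk r x) ⟨x, rfl⟩ = g (Quotient.mk r y) ⟨y, rfl⟩ → x = y := by
    intro q hx hy
    subst hx
    intro h3
    have h4 : g (Quotient.mk r y) ⟨y, rfl⟩ = g (Quotient.mk r x) ⟨y, hy⟩ := by
      have : ∀ q' (hq' : Quotient.mk r y = q'), g (Quotient.mk r y) ⟨y, rfl⟩ = g q' ⟨y, hq'⟩ := by
        rintro _ rfl
        rfl
      exact this _ hy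
    rw [h4] at h3
    exact congrArg Subtype.val (hg _ h3)
  exact h2 _ hq rfl hn

variable {k : ℕ} {B : Type*} [CylOps (k + 3) B]

theorem exists_col {S N m : ℕ} (hθ : Theta S N m B) :
    ∃ col : B → Option (Fin S) × Fin (N + 1), ∀ u v w : B, IsLab u → IsLab v → IsLab w →
      col u = col v → col v = col w → ¬ Tri u v w := by
  classical
  obtain ⟨σ, h1, h2, h3, h4, h5, h6, _⟩ := hθ
  choose sh hsh using fun u : {u : B // IsLab u} => h1 u.1 u.2
  let r : Setoid {u : B // IsLab u} :=
    { r := fun u v => sh u = sh v ∧ (u = v ∨ Tri u.1 v.1 v.1)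
      iseqv := by
        refine ⟨fun u => ⟨rfl, Or.inl rfl⟩, ?_, ?_⟩
        · rintro u v ⟨ha, hb⟩
          refine ⟨ha.symm, ?_⟩
          rcases hb with hb | hb
          · exact Or.inl hb.symm
          · exact Or.inr (h3 (sh u) u.1 v.1 u.2 v.2 (hsh u) (ha ▸ hsh v) hb)
        · rintro u v w ⟨ha, hb⟩ ⟨ha', hb'⟩
          refine ⟨ha.trans ha', ?_⟩
          rcases hb with hb | hb
          · rw [hb]; exact hb'
          · rcases hb' with hb' | hb'
            · rw [← hb']; exact Or.inr hb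
            · rcases h4 (sh u) u.1 v.1 w.1 u.2 v.2 w.2 (hsh u) (ha ▸ hsh v)
                ((ha.trans ha') ▸ hsh w) hb hb' with h | h
              · exact Or.inl (Subtype.ext h)
              · exact Or.inr h }
  obtain ⟨num, hnum⟩ := exists_num r N (by
    intro f hf
    by_contra hcon
    push Not at hcon
    have hs : ∀ i, sh (f i) = sh (f 0) := fun i => (hcon i 0).1
    obtain ⟨i, j, hij, hT⟩ := h6 (sh (f 0)) (fun i => (f i).1)
      (fun i => ⟨(f i).2, (hs i) ▸ hsh (f i)⟩)
      (fun i j hij h => hij (hf (Subtype.ext h)))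
    rcases (hcon i j).2 with h | h
    · exact hij (hf h)
    · exact hT h)
  refine ⟨fun u => if h : IsLab u then (some (sh ⟨u, h⟩), num ⟨u, h⟩) else (none, 0), ?_⟩
  intro u v w hu hv hw huv hvw hT
  simp only [dif_pos hu, dif_pos hv, dif_pos hw, Prod.mk.injEq, Option.some.injEq] at huv hvw
  have hsu := hsh ⟨u, hu⟩
  have hsv := hsh ⟨v, hv⟩
  have hsw := hsh ⟨w, hw⟩
  rw [← huv.1] at hsv
  rw [← hvw.1, ← huv.1] at hsw
  have hirr : ∀ x : B, IsLab x → ¬ Tri x x x := fun x hx => (h2 x hx).2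
  rcases h5 _ u v w hu hv hw hsu hsv hsw hT with h | h | h
  · have := hnum ⟨u, hu⟩ ⟨v, hv⟩ ⟨huv.1, Or.inr h⟩ huv.2
    have h7 : u = v := congrArg Subtype.val this
    rw [← h7] at h
    exact hirr u hu h
  · have := hnum ⟨v, hv⟩ ⟨w, hw⟩ ⟨hvw.1, Or.inr h⟩ hvw.2
    have h7 : v = w := congrArg Subtype.val this
    rw [← h7] at h
    exact hirr v hv h
  · have := hnum ⟨u, hu⟩ ⟨w, hw⟩ ⟨huv.1.trans hvw.1, Or.inr h⟩ (huv.2.trans hvw.2)
    have h7 : u = w := congrArg Subtype.val this
    rw [← h7] at h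
    exact hirr u hu h

end Pool.Agent.Q216.UU
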