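import Mathlib
import Pool.Agent.Q216.UU.Cm

/-!
# Algebras with the property `Theta` are not strongly representable: the main argument
-/

set_option autoImplicit false

namespace Pool.Agent.Q216.UU

open CylOps

/-- A homomorphism of Boolean set algebras with operators, for an algebra of sets. -/
structure SetHom {n : ℕ} {At : Type*} (cc : Fin n → Set At → Set At) (dd : Fin n → Fin n → Set At)
    {U : Type*} (h : Set At → Set (Fin n → U)) : Prop where
  inter : ∀ X Y, h (X ∩ Y) = h X ∩ h Y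
  compl : ∀ X, h Xᶜ = (h X)ᶜ
  cyl : ∀ k X, h (cc k X) = setC k (h X)
  diag : ∀ k l, h (dd k l) = setD k l

namespace SetHom

variable {n : ℕ} {At : Type*} {cc : Fin n → Set At → Set At} {dd : Fin n → Fin n → Set At}
  {U : Type*} {h : Set At → Set (Fin n → U)} (H : SetHom cc dd h)
include H

theorem empty : h ∅ = ∅ := by
  have h1 := H.inter ∅ ∅ᶜ
  rw [H.compl, Set.inter_compl_self, Set.inter_compl_self] at h1
  exact h1

theorem union (X Y : Set At) : h (X ∪ Y) = h X ∪ h Y := by
  have h1 : X ∪ Y = (Xᶜ ∩ Yᶜ)ᶜ := by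
    rw [Set.compl_inter, compl_compl, compl_compl]
  rw [h1, H.compl, H.inter, H.compl, H.compl, Set.compl_inter, compl_compl, compl_compl]

theorem mono {X Y : Set At} (hXY : X ⊆ Y) : h X ⊆ h Y := by
  have h1 : X ∩ Y = X := Set.inter_eq_left.mpr hXY
  have h2 := H.inter X Y
  rw [h1] at h2
  rw [h2]
  exact Set.inter_subset_right

theorem mem_biUnion {C : Type*} (K : Finset C) (X : C → Set At) (t : Fin n → U)
    (ht : t ∈ h (⋃ κ ∈ K, X κ)) : ∃ κ ∈ K, t ∈ h (X κ) := by
  classical
  induction K using Finset.induction_on with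
  | empty =>
    simp only [Finset.notMem_empty, Set.iUnion_of_empty, Set.iUnion_empty] at ht
    rw [H.empty] at ht
    exact absurd ht (Set.notMem_empty _)
  | insert a K _ ih =>
    rw [Finset.set_biUnion_insert, H.union] at ht
    rcases ht with ht | ht
    · exact ⟨a, Finset.mem_insert_self _ _, ht⟩
    · obtain ⟨κ, h1, h2⟩ := ih ht
      exact ⟨κ, Finset.mem_insert_of_mem h1, h2⟩

theorem mem_univ (t : Fin n → U) (X : Set At) (hX : ∀ a, a ∈ X) : t ∈ h X := by
  by_contra hcon
  have h1 : t ∈ h Xᶜ := by rw [H.compl]; exact hcon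
  have h2 : Xᶜ = ∅ := by
    ext a
    simp [hX a]
  rw [h2, H.empty] at h1
  exact h1

/-- Invariance under the change of the coordinates in which `X` is closed. -/
theorem invariant {X : Set At} (F : Finset (Fin n)) (hF : ∀ j ∈ F, cc j X = X) {t t' : Fin n → U}
    (ht : t ∈ h X) (htt' : ∀ j, j ∉ F → t j = t' j) : t' ∈ h X := by
  classical
  induction F using Finset.induction_on generalizing t with
  | empty =>
    have : t = t' := funext fun j => htt' j (Finset.notMem_empty _)
    rw [← this]; exact ht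
  | insert a F _ ih =>
    refine ih (fun j hj => hF j (Finset.mem_insert_of_mem hj)) (t := Function.update t a (t' a))
      ?_ ?_
    · rw [← hF a (Finset.mem_insert_self _ _), H.cyl]
      refine ⟨t, ht, fun j hj => ?_⟩
      rw [Function.update_of_ne hj]
    · intro j hj
      rcases eq_or_ne j a with h1 | h1
      · rw [h1, Function.update_self]
      · rw [Function.update_of_ne h1]
        exact htt' j (fun h2 => (Finset.mem_insert.mp h2).elim h1 hj)

end SetHom

variable {k : ℕ} {B : Type*} [CylOps (k + 3) B]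

/-- cylindrification in the complex algebra -/
def cmC (i : Fin (k + 3)) (X : Set {a : B // IsAtom a}) : Set {a : B // IsAtom a} :=
  {a | ∃ b ∈ X, a.1 ≤ c i b.1}

/-- diagonals of the complex algebra -/
def cmD (i j : Fin (k + 3)) : Set {a : B // IsAtom a} := {a | a.1 ≤ d i j}

theorem d01_closed (hCA : IsCA (k + 3) B) {j : Fin (k + 3)} (h0 : j ≠ i0) (h1 : j ≠ i1) :
    c j (d i0 i1 : B) = d i0 i1 := by
  rw [hCA.d_comp i0 i1 j h0 h1]
  exact (hCA.clo_c j).idem _

theorem not_setHom (hCA : IsCA (k + 3) B) (hA : IsAtomic B) {S N m : ℕ} (hθ : Theta S N m B)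
    (hm : ∀ f : Fin m → Fin m → Option (Fin S) × Fin (N + 1),
      ∃ i j l : Fin m, i < j ∧ j < l ∧ f i j = f j l ∧ f i j = f i l)
    {U : Type*} {h : Set {a : B // IsAtom a} → Set (Fin (k + 3) → U)}
    (H : SetHom cmC cmD h) (hne : Nonempty (Fin (k + 3) → U)) : False := by
  classical
  obtain ⟨col, hcol⟩ := exists_col hθ
  obtain ⟨σ, -, h2, -, -, -, -, u, hu, hud⟩ := hθ
  obtain ⟨t0⟩ := hne
  -- the sets of atoms of a given colour
  let X : Option (Fin S) × Fin (N + 1) → Set {a : B // IsAtom a} := fun κ =>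
    {a | a.1 ≤ (d i0 i1)ᶜ ∧ col (cl (lst k) a.1) = κ}
  have hXc : ∀ κ, ∀ j : Fin (k + 3), j ≠ i0 → j ≠ i1 → cmC j (X κ) = X κ := by
    intro κ j hj0 hj1
    ext a
    constructor
    · rintro ⟨b, ⟨hb1, hb2⟩, hab⟩
      have hab' : a.1 ≤ cl (lst k) b.1 := hab.trans (hCA.c_le_cl (mem_lst.mpr ⟨hj0, hj1⟩) _)
      refine ⟨?_, ?_⟩
      · rw [le_compl_iff_disjoint_right, disjoint_iff]
        by_contra hne
        have h3 : a.1 ≤ d i0 i1 := by
          rw [atom_le_iff a.2]; exact hne
        have h4 : b.1 ≤ c j a.1 := (hCA.clo_c j).atom_le_symm a.2 b.2 hab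
        have h5 : b.1 ≤ d i0 i1 := by
          have := h4.trans ((hCA.clo_c j).mono h3)
          rwa [d01_closed hCA hj0 hj1] at this
        have h6 : b.1 ≤ ⊥ := by
          rw [← inf_compl_self (d i0 i1 : B)]
          exact le_inf h5 hb1
        exact b.2.1 (le_bot_iff.mp h6)
      · rw [(hCA.clo_cl (lst k)).eq_of_atom_le a.2 b.2 hab']
        exact hb2
    · intro ha
      exact ⟨a, ha, hCA.le_c j _⟩
  -- pairs of different points have a colour
  have hXex : ∀ t : Fin (k + 3) → U, t i0 ≠ t i1 → ∃ κ, t ∈ h (X κ) := by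
    intro t ht
    have h3 : t ∈ h (⋃ κ ∈ (Finset.univ : Finset (Option (Fin S) × Fin (N + 1))), X κ) := by
      have h4 : (⋃ κ ∈ (Finset.univ : Finset (Option (Fin S) × Fin (N + 1))), X κ) =
          (cmD i0 i1)ᶜ := by
        ext a
        simp only [Finset.mem_univ, Set.iUnion_true, Set.mem_iUnion, Set.mem_compl_iff]
        constructor
        · rintro ⟨κ, h5, _⟩ h6
          have h7 : a.1 ≤ ⊥ := by
            rw [← inf_compl_self (d i0 i1 : B)]
            exact le_inf h6 h5
          exact a.2.1 (le_bot_iff.mp h7)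
        · intro h5
          refine ⟨_, ?_, rfl⟩
          rw [le_compl_iff_disjoint_right, disjoint_iff]
          by_contra h6
          exact h5 ((atom_le_iff a.2).mpr h6)
      rw [h4, H.compl, H.diag]
      exact ht
    obtain ⟨κ, _, h4⟩ := H.mem_biUnion _ X t h3
    exact ⟨κ, h4⟩
  have hXinv : ∀ κ (t t' : Fin (k + 3) → U), t ∈ h (X κ) → t i0 = t' i0 → t i1 = t' i1 →
      t' ∈ h (X κ) := by
    intro κ t t' ht h0 h1
    refine H.invariant (Finset.univ.filter fun j => j ≠ i0 ∧ j ≠ i1)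
      (fun j hj => ?_) ht fun j hj => ?_
    · rw [Finset.mem_filter] at hj
      exact hXc κ j hj.2.1 hj.2.2
    · rw [Finset.mem_filter] at hj
      by_cases h3 : j = i0
      · rw [h3, h0]
      · by_cases h4 : j = i1
        · rw [h4, h1]
        · exact absurd ⟨Finset.mem_univ _, h3, h4⟩ hj
  -- no triangle of one colour
  have hXtri : ∀ κ, X κ ∩ cmC i0 (cmD i0 i1 ∩ cmC i1 (cmD i1 i2 ∩ X κ)) ∩
      cmC i1 (cmD i1 i2 ∩ X κ) = ∅ := by
    intro κ
    rw [Set.eq_empty_iff_forall_notMem]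
    rintro a ⟨⟨ha, ⟨b', ⟨hb'd, b'', ⟨hb''d, hb''⟩, hb'b''⟩, hab'⟩⟩, ⟨b, ⟨hbd, hb⟩, hab⟩⟩
    have e0 := (hCA.clo_cl (lst k)).ext
    have hw : a.1 ≤ up02 (cl (lst k) b.1) :=
      hab.trans ((hCA.clo_c i1).mono (le_inf hbd (e0 _)))
    have hv' : b'.1 ≤ up02 (cl (lst k) b''.1) :=
      hb'b''.trans ((hCA.clo_c i1).mono (le_inf hb''d (e0 _)))
    have hv : a.1 ≤ up12 (cl (lst k) b''.1) :=
      hab'.trans ((hCA.clo_c i0).mono (le_inf hb'd hv'))
    have hT : Tri (cl (lst k) a.1) (cl (lst k) b''.1) (cl (lst k) b.1) := by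
      intro hbot
      have h3 : a.1 ≤ ⊥ := by
        rw [← hbot]
        exact le_inf (le_inf (e0 _) hv) hw
      exact a.2.1 (le_bot_iff.mp h3)
    exact hcol _ _ _ (isLab_cl a.2 ha.1) (isLab_cl b''.2 hb''.1) (isLab_cl b.2 hb.1)
      (ha.2.trans hb''.2.symm) (hb''.2.trans hb.2.symm) hT
  -- points
  let L : Fin m → Set {a : B // IsAtom a} := fun i => {a | a.1 ≤ u i}
  have hLall : ∀ i, ∀ a : {a : B // IsAtom a}, a ∈ cmC i1 (L i) := by
    intro i a
    have h3 : a.1 ⊓ c i1 (u i) ≠ ⊥ := by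
      rw [(h2 (u i) (hu i)).1, inf_top_eq]
      exact a.2.1
    have h4 : c i1 a.1 ⊓ u i ≠ ⊥ := fun h5 => h3 ((hCA.clo_c i1).disj_iff.mpr h5)
    obtain ⟨b, hb, hb'⟩ := (eq_bot_or_exists_atom_le (c i1 a.1 ⊓ u i)).resolve_left h4
    exact ⟨⟨b, hb⟩, hb'.trans inf_le_right,
      (hCA.clo_c i1).atom_le_symm hb a.2 (hb'.trans inf_le_left)⟩
  have hy : ∀ i, ∃ y : U, Function.update t0 i1 y ∈ h (L i) := by
    intro i
    have h3 : t0 ∈ h (cmC i1 (L i)) := H.mem_univ t0 _ (hLall i)
    rw [H.cyl] at h3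
    obtain ⟨b, hb, hb'⟩ := h3
    refine ⟨b i1, ?_⟩
    have : Function.update t0 i1 (b i1) = b := by
      funext j
      rcases eq_or_ne j i1 with h4 | h4
      · rw [h4, Function.update_self]
      · rw [Function.update_of_ne h4]
        exact hb' j h4
    rw [this]
    exact hb
  choose y hy using hy
  have hyinj : ∀ i j, i ≠ j → y i ≠ y j := by
    intro i j hij hyy
    have h3 := hy i
    rw [hyy] at h3
    have h4 : Function.update t0 i1 (y j) ∈ h (L i ∩ L j) := by
      rw [H.inter]; exact ⟨h3, hy j⟩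
    have h5 : L i ∩ L j = ∅ := by
      rw [Set.eq_empty_iff_forall_notMem]
      rintro a ⟨ha1, ha2⟩
      exact hud i j hij (((hu i).eq_of_atom hCA a.2 ha1).trans ((hu j).eq_of_atom hCA a.2 ha2).symm)
    rw [h5, H.empty] at h4
    exact h4
  -- colours of pairs
  let tup : U → U → Fin (k + 3) → U := fun a b j => if j = i0 then a else b
  have hpair : ∀ i j : Fin m, i ≠ j → ∃ κ, tup (y i) (y j) ∈ h (X κ) := by
    intro i j hij
    apply hXex
    simp only [tup, if_true, if_neg i01.symm]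
    exact hyinj i j hij
  let f : Fin m → Fin m → Option (Fin S) × Fin (N + 1) := fun i j =>
    if hij : i ≠ j then (hpair i j hij).choose else (none, 0)
  have hf : ∀ i j, i ≠ j → tup (y i) (y j) ∈ h (X (f i j)) := by
    intro i j hij
    simp only [f, dif_pos hij]
    exact (hpair i j hij).choose_spec
  obtain ⟨i, j, l, hij, hjl, he1, he2⟩ := hm f
  set κ := f i j with hκ
  have p1 := hf i j hij.ne
  have p2 := hf j l hjl.ne
  have p3 := hf i l (hij.trans hjl).ne
  rw [← hκ] at p1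
  rw [← he1] at p2
  rw [← he2] at p3
  -- the tuple
  let t : Fin (k + 3) → U := fun q => if q = i0 then y i else if q = i1 then y j else y l
  have ht0 : t i0 = y i := by simp [t]
  have ht1 : t i1 = y j := by simp [t, i01.symm]
  have ht2 : t i2 = y l := by simp [t, i02.symm, i12.symm]
  have tup0 : ∀ a b : U, tup a b i0 = a := fun a b => by simp [tup]
  have tup1 : ∀ a b : U, tup a b i1 = b := fun a b => by simp [tup, i01.symm]
  have q1 : t ∈ h (X κ) := hXinv κ _ _ p1 (by rw [tup0, ht0]) (by rw [tup1, ht1])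
  have q02 : ∀ s : Fin (k + 3) → U, tup (s i0) (s i2) ∈ h (X κ) →
      s ∈ h (cmC i1 (cmD i1 i2 ∩ X κ)) := by
    intro s hs
    rw [H.cyl]
    refine ⟨Function.update s i1 (s i2), ?_, fun q hq => by rw [Function.update_of_ne hq]⟩
    rw [H.inter, H.diag]
    refine ⟨?_, ?_⟩
    · change Function.update s i1 (s i2) i1 = Function.update s i1 (s i2) i2
      rw [Function.update_self, Function.update_of_ne i12.symm]
    · refine hXinv κ _ _ hs ?_ ?_
      · rw [tup0, Function.update_of_ne i01]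
      · rw [tup1, Function.update_self]
  have q3 : t ∈ h (cmC i1 (cmD i1 i2 ∩ X κ)) := q02 t (by rw [ht0, ht2]; exact p3)
  have q2 : t ∈ h (cmC i0 (cmD i0 i1 ∩ cmC i1 (cmD i1 i2 ∩ X κ))) := by
    rw [H.cyl]
    refine ⟨Function.update t i0 (t i1), ?_, fun q hq => by rw [Function.update_of_ne hq]⟩
    rw [H.inter, H.diag]
    refine ⟨?_, ?_⟩
    · change Function.update t i0 (t i1) i0 = Function.update t i0 (t i1) i1
      rw [Function.update_self, Function.update_of_ne i01.symm]
    · apply q02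
      rw [Function.update_self, Function.update_of_ne i02.symm, ht1, ht2]
      exact p2
  have h9 : t ∈ h (X κ ∩ cmC i0 (cmD i0 i1 ∩ cmC i1 (cmD i1 i2 ∩ X κ)) ∩
      cmC i1 (cmD i1 i2 ∩ X κ)) := by
    rw [H.inter, H.inter]
    exact ⟨⟨q1, q2⟩, q3⟩
  rw [hXtri, H.empty] at h9
  exact h9

/-- **Main lemma**: an atomic cylindric algebra with the property `Theta` is not strongly
representable. -/
theorem not_representable.{u, v, w} {B : Type u} [CylOps (k + 3) B] (hCA : IsCA (k + 3) B)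
    (hA : IsAtomic B) {S N m : ℕ} (hθ : Theta S N m B)
    (hm : ∀ f : Fin m → Fin m → Option (Fin S) × Fin (N + 1),
      ∃ i j l : Fin m, i < j ∧ j < l ∧ f i j = f j l ∧ f i j = f i l) :
    ¬ Representable.{u, v, w} (k + 3) (CmAt B) := by
  rintro ⟨I, U, h, hinj, hinf, hcompl, hc, hd⟩
  have hhom : ∀ i, SetHom (At := {a : B // IsAtom a}) cmC cmD (h i) := fun i =>
    ⟨fun X Y => hinf i X Y, fun X => hcompl i X, fun q X => hc i q X, fun q l => hd i q l⟩
  have hempty : ∀ i, IsEmpty (Fin (k + 3) → U i) := by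
    intro i
    by_contra hne
    rw [not_isEmpty_iff] at hne
    exact not_setHom hCA hA hθ hm (hhom i) hne
  have h1 : (⊤ : CmAt B) = ⊥ := by
    apply hinj
    intro i
    have := hempty i
    ext t
    exact (IsEmpty.false t).elim
  obtain ⟨i, -⟩ := hm fun _ _ => (none, 0)
  obtain ⟨σ, -, -, -, -, -, -, u, hu, -⟩ := hθ
  obtain ⟨a, ha, -, -⟩ := hu i
  have h2 : (⟨a, ha⟩ : {a : B // IsAtom a}) ∈ (Set.univ : Set {a : B // IsAtom a}) :=
    Set.mem_univ _
  have h3 : (Set.univ : Set {a : B // IsAtom a}) = ∅ := h1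
  rw [h3] at h2
  exact h2

end Pool.Agent.Q216.UU
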