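import Mathlib
import Pool.Agent.Q216.UU.Clo

/-!
# The property `Theta` passes to ultraproducts and ultraroots
-/

set_option autoImplicit false

namespace Pool.Agent.Q216.UU

open CylOps

section Connectives

variable {I : Type*} {U : Ultrafilter I}

theorem tr_and {X X' : Prop} {Y Y' : I → Prop} (h : X ↔ ∀ᶠ i in (U : Filter I), Y i)
    (h' : X' ↔ ∀ᶠ i in (U : Filter I), Y' i) :
    (X ∧ X') ↔ ∀ᶠ i in (U : Filter I), Y i ∧ Y' i := by
  rw [h, h', Filter.eventually_and]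

theorem tr_not {X : Prop} {Y : I → Prop} (h : X ↔ ∀ᶠ i in (U : Filter I), Y i) :
    (¬ X) ↔ ∀ᶠ i in (U : Filter I), ¬ Y i := by
  rw [h, Ultrafilter.eventually_not]

theorem tr_or {X X' : Prop} {Y Y' : I → Prop} (h : X ↔ ∀ᶠ i in (U : Filter I), Y i)
    (h' : X' ↔ ∀ᶠ i in (U : Filter I), Y' i) :
    (X ∨ X') ↔ ∀ᶠ i in (U : Filter I), Y i ∨ Y' i := by
  rw [h, h', Ultrafilter.eventually_or]

theorem tr_imp {X X' : Prop} {Y Y' : I → Prop} (h : X ↔ ∀ᶠ i in (U : Filter I), Y i)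
    (h' : X' ↔ ∀ᶠ i in (U : Filter I), Y' i) :
    (X → X') ↔ ∀ᶠ i in (U : Filter I), Y i → Y' i := by
  rw [h, h', Ultrafilter.eventually_imp]

theorem tr_const (X : Prop) : X ↔ ∀ᶠ _ in (U : Filter I), X := by
  rw [Filter.eventually_const]

theorem tr_all {κ : Type*} [Finite κ] {X : κ → Prop} {Y : κ → I → Prop}
    (h : ∀ k, X k ↔ ∀ᶠ i in (U : Filter I), Y k i) :
    (∀ k, X k) ↔ ∀ᶠ i in (U : Filter I), ∀ k, Y k i := by
  rw [Filter.eventually_all]
  exact forall_congr' h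

theorem tr_ex {κ : Type*} [Finite κ] {X : κ → Prop} {Y : κ → I → Prop}
    (h : ∀ k, X k ↔ ∀ᶠ i in (U : Filter I), Y k i) :
    (∃ k, X k) ↔ ∀ᶠ i in (U : Filter I), ∃ k, Y k i := by
  have h1 := tr_not (tr_all fun k => tr_not (h k))
  simpa using h1

end Connectives

variable {n : ℕ} {I : Type*} {U : Ultrafilter I} {A : I → Type*} [∀ i, CylOps n (A i)]
  {B : Type*} [CylOps n B]

/-- The homomorphism of the product onto the ultraproduct. -/
structure IsUP (U : Ultrafilter I) (p : (∀ i, A i) → B) : Prop where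
  surj : Function.Surjective p
  eq : ∀ x y, p x = p y ↔ ∀ᶠ i in (U : Filter I), x i = y i
  inf : ∀ x y, p (fun i => x i ⊓ y i) = p x ⊓ p y
  compl : ∀ x, p (fun i => (x i)ᶜ) = (p x)ᶜ
  cyl : ∀ (k : Fin n) (x), p (fun i => c k (x i)) = c k (p x)
  diag : ∀ k l : Fin n, p (fun _ => d k l) = d k l

namespace IsUP

variable {p : (∀ i, A i) → B} (H : IsUP (n := n) U p)
include H

theorem forall_fun {κ : Type*} {P : (κ → B) → Prop} {Q : ∀ i, (κ → A i) → Prop}
    (h : ∀ x : κ → ∀ i, A i, P (fun k => p (x k)) ↔ ∀ᶠ i in (U : Filter I), Q i fun k => x k i) :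
    (∀ f, P f) ↔ ∀ᶠ i in (U : Filter I), ∀ f, Q i f := by
  classical
  constructor
  · intro h1
    by_contra hcon
    rw [← Ultrafilter.eventually_not] at hcon
    have h2 : ∀ i, ∃ f : κ → A i, (¬ ∀ f, Q i f) → ¬ Q i f := by
      intro i
      by_cases h3 : ∀ f, Q i f
      · by_cases h4 : Nonempty (κ → A i)
        · obtain ⟨f⟩ := h4
          exact ⟨f, fun h5 => absurd h3 h5⟩
        · obtain ⟨z, -⟩ := H.surj (⊥ : B)
          exact absurd ⟨fun _ => z i⟩ h4
      · push Not at h3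
        obtain ⟨f, hf⟩ := h3
        exact ⟨f, fun _ => hf⟩
    choose f hf using h2
    have h3 := (h fun k i => f i k).mp (h1 _)
    have h4 : ∀ᶠ i in (U : Filter I), False := by
      filter_upwards [h3, hcon] with i h5 h6
      exact hf i h6 h5
    exact Filter.NeBot.ne (f := (U : Filter I)) inferInstance (Filter.eventually_false_iff_eq_bot.mp h4)
  · intro h1 f
    choose x hx using fun k => H.surj (f k)
    have h2 : f = fun k => p (x k) := funext fun k => (hx k).symm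
    rw [h2, h]
    filter_upwards [h1] with i hi
    exact hi _

theorem exists_fun {κ : Type*} {P : (κ → B) → Prop} {Q : ∀ i, (κ → A i) → Prop}
    (h : ∀ x : κ → ∀ i, A i, P (fun k => p (x k)) ↔ ∀ᶠ i in (U : Filter I), Q i fun k => x k i) :
    (∃ f, P f) ↔ ∀ᶠ i in (U : Filter I), ∃ f, Q i f := by
  have h1 := tr_not (H.forall_fun (P := fun f => ¬ P f) (Q := fun i f => ¬ Q i f)
    fun x => tr_not (h x))
  simpa using h1

theorem forall_el {P : B → Prop} {Q : ∀ i, A i → Prop}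
    (h : ∀ x : ∀ i, A i, P (p x) ↔ ∀ᶠ i in (U : Filter I), Q i (x i)) :
    (∀ b, P b) ↔ ∀ᶠ i in (U : Filter I), ∀ a, Q i a := by
  have h1 := H.forall_fun (κ := Unit) (P := fun f => P (f ())) (Q := fun i f => Q i (f ()))
    fun x => h (x ())
  constructor
  · intro h2
    have h3 := h1.mp fun f => h2 _
    filter_upwards [h3] with i hi a
    exact hi fun _ => a
  · intro h2 b
    refine h1.mpr ?_ fun _ => b
    filter_upwards [h2] with i hi f
    exact hi _

theorem exists_el {P : B → Prop} {Q : ∀ i, A i → Prop}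
    (h : ∀ x : ∀ i, A i, P (p x) ↔ ∀ᶠ i in (U : Filter I), Q i (x i)) :
    (∃ b, P b) ↔ ∀ᶠ i in (U : Filter I), ∃ a, Q i a := by
  have h1 := tr_not (H.forall_el (P := fun f => ¬ P f) (Q := fun i f => ¬ Q i f)
    fun x => tr_not (h x))
  simpa using h1

theorem bot : p (fun _ => ⊥) = ⊥ := by
  have h1 := H.inf (fun _ => ⊥) (fun _ => ⊥ᶜ)
  have h2 := H.compl (fun _ => ⊥)
  rw [h2, inf_compl_self] at h1
  simpa using h1

theorem top : p (fun _ => ⊤) = ⊤ := by
  have h2 := H.compl (fun _ => ⊥)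
  rw [H.bot] at h2
  simpa using h2

theorem le (x y : ∀ i, A i) : p x ≤ p y ↔ ∀ᶠ i in (U : Filter I), x i ≤ y i := by
  rw [← inf_eq_left, ← H.inf, H.eq]
  simp only [inf_eq_left]

theorem cl (l : List (Fin n)) (x : ∀ i, A i) : p (fun i => UU.cl l (x i)) = UU.cl l (p x) := by
  induction l with
  | nil => rfl
  | cons j l ih =>
    change p (fun i => c j (UU.cl l (x i))) = c j (UU.cl l (p x))
    rw [H.cyl, ih]

theorem atom (x : ∀ i, A i) : IsAtom (p x) ↔ ∀ᶠ i in (U : Filter I), IsAtom (x i) := by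
  have h1 : ∀ (T : Type _) [BooleanAlgebra T] (a : T),
      IsAtom a ↔ (¬ a = ⊥) ∧ ∀ b, b ≤ a → (b = ⊥ ∨ b = a) := by
    intro T _ a
    constructor
    · intro h
      exact ⟨h.1, fun b hb => h.le_iff.mp hb⟩
    · rintro ⟨h2, h3⟩
      exact ⟨h2, fun b hb => (h3 b hb.le).resolve_right hb.ne⟩
  have h2 : ∀ (T : Type _) [BooleanAlgebra T] (a : T),
      IsAtom a ↔ (¬ a = ⊥) ∧ ∀ b, b ≤ a → (b = ⊥ ∨ b = a) := by
    intro T _ a
    constructor
    · intro h
      exact ⟨h.1, fun b hb => h.le_iff.mp hb⟩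
    · rintro ⟨h2, h3⟩
      exact ⟨h2, fun b hb => (h3 b hb.le).resolve_right hb.ne⟩
  rw [h1]
  have h3 : (¬ p x = ⊥ ∧ ∀ b, b ≤ p x → (b = ⊥ ∨ b = p x)) ↔
      ∀ᶠ i in (U : Filter I), (¬ x i = ⊥) ∧ ∀ b, b ≤ x i → (b = ⊥ ∨ b = x i) := by
    refine tr_and (tr_not ?_) (H.forall_el fun y => tr_imp (H.le _ _) (tr_or ?_ (H.eq _ _)))
    · rw [← H.bot, H.eq]
    · rw [← H.bot, H.eq]
  rw [h3]
  refine Filter.eventually_congr (Filter.Eventually.of_forall fun i => (h2 _ _).symm)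

end IsUP

variable {k : ℕ} {A : I → Type*} [∀ i, CylOps (k + 3) (A i)]
  {B : Type*} [CylOps (k + 3) B] {p : (∀ i, A i) → B} (H : IsUP (n := k + 3) U p)
include H

theorem IsUP.lab (x : ∀ i, A i) : IsLab (p x) ↔ ∀ᶠ i in (U : Filter I), IsLab (x i) := by
  unfold IsLab
  refine H.exists_el fun y => tr_and (H.atom y) (tr_and ?_ ?_)
  · rw [← H.diag, ← H.compl, H.le]
  · rw [← H.cl, H.eq]

theorem IsUP.tri (x y z : ∀ i, A i) :
    Tri (p x) (p y) (p z) ↔ ∀ᶠ i in (U : Filter I), Tri (x i) (y i) (z i) := by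
  unfold Tri up12 up02
  refine tr_not ?_
  rw [← H.diag, ← H.diag, ← H.inf, ← H.cyl, ← H.inf, ← H.cyl, ← H.inf, ← H.inf, ← H.cyl, ← H.inf,
    ← H.bot, H.eq]

theorem IsUP.theta (S N m : ℕ) :
    Theta S N m B ↔ ∀ᶠ i in (U : Filter I), Theta S N m (A i) := by
  unfold Theta
  refine H.exists_fun fun σ => tr_and ?_ (tr_and ?_ (tr_and ?_ (tr_and ?_ (tr_and ?_
    (tr_and ?_ ?_)))))
  · exact H.forall_el fun u => tr_imp (H.lab u) (tr_ex fun s => H.le _ _)
  · refine H.forall_el fun u => tr_imp (H.lab u) (tr_and ?_ (tr_not (H.tri _ _ _)))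
    rw [← H.cyl, ← H.top, H.eq]
  · exact tr_all fun s => H.forall_el fun u => H.forall_el fun v => tr_imp (H.lab _)
      (tr_imp (H.lab _) (tr_imp (H.le _ _) (tr_imp (H.le _ _) (tr_imp (H.tri _ _ _)
        (H.tri _ _ _)))))
  · exact tr_all fun s => H.forall_el fun u => H.forall_el fun v => H.forall_el fun w =>
      tr_imp (H.lab _) (tr_imp (H.lab _) (tr_imp (H.lab _) (tr_imp (H.le _ _) (tr_imp (H.le _ _)
        (tr_imp (H.le _ _) (tr_imp (H.tri _ _ _) (tr_imp (H.tri _ _ _) (tr_or (H.eq _ _)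
          (H.tri _ _ _)))))))))
  · exact tr_all fun s => H.forall_el fun u => H.forall_el fun v => H.forall_el fun w =>
      tr_imp (H.lab _) (tr_imp (H.lab _) (tr_imp (H.lab _) (tr_imp (H.le _ _) (tr_imp (H.le _ _)
        (tr_imp (H.le _ _) (tr_imp (H.tri _ _ _) (tr_or (H.tri _ _ _) (tr_or (H.tri _ _ _)
          (H.tri _ _ _)))))))))
  · refine tr_all fun s => H.forall_fun fun u => tr_imp (tr_all fun i => tr_and (H.lab _)
      (H.le _ _)) (tr_imp (tr_all fun i => tr_all fun j => tr_imp (tr_const _)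
        (tr_not (H.eq _ _))) (tr_ex fun i => tr_ex fun j => tr_and (tr_const _)
          (tr_not (H.tri _ _ _))))
  · exact H.exists_fun fun u => tr_and (tr_all fun i => H.lab _) (tr_all fun i => tr_all fun j =>
      tr_imp (tr_const _) (tr_not (H.eq _ _)))

end Pool.Agent.Q216.UU
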