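import Mathlib
import Pool.Agent.Q216.UU.Alg
import Pool.Agent.Q216.UU.Transfer
import Pool.Agent.Q216.UU.NonRep
import Pool.Agent.Q216.UU.Ramsey

/-!
# The algebra has the property `Theta`
-/

set_option autoImplicit false

namespace Pool.Agent.Q216.UU

open CylOps

theorem not_good_self {n : ℕ} {t : Lb n} (ht : t.2 ≠ none) : ¬ Good t t := by
  rintro ⟨-, h | h⟩
  · exact ht h
  · exact h rfl

/-- For labels of the same shade. -/
theorem good_of_allowed {n : ℕ} {a b : Lb n} (hb : b.2 ≠ none) (h : Allowed a b b)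
    (hs : a.1 = b.1) : Good a b := by
  rcases h hs hs with h1 | h1 | h1
  · exact h1
  · exact h1
  · exact absurd h1 (not_good_self hb)

theorem allowed_of_good {n : ℕ} {a b : Lb n} (h : Good a b) : Allowed a b b :=
  fun _ _ => Or.inl h

variable {k : ℕ}

theorem Al.theta (k m : ℕ) :
    Theta (2 * (k + 3) + 1) ((k + 3) * (k + 3) + (k + 3)) m (Al k) := by
  refine ⟨Al.sh, ?_, ?_, ?_, ?_, ?_, ?_, ?_⟩
  · intro u hu
    obtain ⟨t, ht, rfl⟩ := Al.isLab_iff.mp hu
    exact ⟨t.1, Al.E_le_sh.mpr rfl⟩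
  · intro u hu
    obtain ⟨t, ht, rfl⟩ := Al.isLab_iff.mp hu
    constructor
    · apply Al.ext'
      rw [Al.val_c, Al.val_top, Set.eq_univ_iff_forall]
      intro z
      rw [mem_setC]
      obtain ⟨q, hq, hqt⟩ := Al.exists_pair (z i0) t
      refine ⟨q, ?_⟩
      rw [Al.mem_E, Function.update_self, Function.update_of_ne i01, Pt.L_symm, hqt]
      exact ⟨Ne.symm hq, rfl⟩
    · rw [Al.tri_iff]
      intro h
      exact not_good_self ht (good_of_allowed ht h rfl)
  · intro s u v hu hv hus hvs h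
    obtain ⟨t, ht, rfl⟩ := Al.isLab_iff.mp hu
    obtain ⟨t', ht', rfl⟩ := Al.isLab_iff.mp hv
    rw [Al.E_le_sh] at hus hvs
    rw [Al.tri_iff] at h ⊢
    exact allowed_of_good (good_of_allowed ht' h (hus.trans hvs.symm)).symm
  · intro s u v w hu hv hw hus hvs hws h h'
    obtain ⟨t, ht, rfl⟩ := Al.isLab_iff.mp hu
    obtain ⟨t', ht', rfl⟩ := Al.isLab_iff.mp hv
    obtain ⟨t'', ht'', rfl⟩ := Al.isLab_iff.mp hw
    rw [Al.E_le_sh] at hus hvs hws
    rw [Al.tri_iff] at h h' ⊢
    have g1 := good_of_allowed ht' h (hus.trans hvs.symm)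
    have g2 := good_of_allowed ht'' h' (hvs.trans hws.symm)
    by_cases h1 : t = t''
    · left
      subst h1
      rfl
    · right
      apply allowed_of_good
      refine ⟨g1.1.trans g2.1, Or.inr fun h2 => h1 ?_⟩
      exact Prod.ext (hus.trans hws.symm) h2
  · intro s u v w hu hv hw hus hvs hws h
    obtain ⟨t, ht, rfl⟩ := Al.isLab_iff.mp hu
    obtain ⟨t', ht', rfl⟩ := Al.isLab_iff.mp hv
    obtain ⟨t'', ht'', rfl⟩ := Al.isLab_iff.mp hw
    rw [Al.E_le_sh] at hus hvs hws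
    rw [Al.tri_iff] at h
    rw [Al.tri_iff, Al.tri_iff, Al.tri_iff]
    rcases h (hus.trans hws.symm) (hus.trans hvs.symm) with h1 | h1 | h1
    · exact Or.inr (Or.inr (allowed_of_good h1))
    · exact Or.inl (allowed_of_good h1)
    · exact Or.inr (Or.inl (allowed_of_good h1.symm))
  · intro s u hu hne
    by_contra hcon
    push Not at hcon
    choose t ht hut using fun i => Al.isLab_iff.mp (hu i).1
    have hs : ∀ i, (t i).1 = s := by
      intro i
      have h1 := (hu i).2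
      rw [hut i, Al.E_le_sh] at h1
      exact h1
    have hg : ∀ i j, i ≠ j → Good (t i) (t j) := by
      intro i j hij
      have h1 := hcon i j hij
      rw [hut i, hut j, Al.tri_iff] at h1
      exact good_of_allowed (ht j) h1 ((hs i).trans (hs j).symm)
    choose q hq using fun i => Option.ne_none_iff_exists'.mp (ht i)
    obtain ⟨i, j, hij, h2⟩ := Fintype.exists_ne_map_eq_of_card_lt (fun i => (q i).2) (by
      rw [Fintype.card_fin, Fintype.card_fin]
      exact Nat.lt_succ_self _)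
    have h3 := hg i j hij
    rcases h3.2 with h4 | h4
    · exact ht i h4
    · apply h4
      have h5 := h3.1
      unfold ind at h5
      rw [hq i, hq j] at h5 ⊢
      have h6 : (q i).1 = (q j).1 := Option.some.inj h5
      exact congrArg some (Prod.ext h6 h2)
  · have hpos : 0 < (k + 3) * (k + 3) + (k + 3) := by positivity
    have ht : ∀ j : ℕ, ((⟨0, some (j, ⟨0, hpos⟩)⟩ : Lb (k + 3))).2 ≠ none :=
      fun j => Option.some_ne_none _
    refine ⟨fun j => Al.E _ (ht j), fun j => Al.isLab_E _ _, fun i j hij h => ?_⟩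
    have h1 := Al.E_inj h
    have h2 := congrArg Prod.snd h1
    have h3 := congrArg Prod.fst (Option.some.inj h2)
    exact hij (Fin.ext h3)

/-- **Main theorem.** -/
theorem exists_algebra.{v, w, x, y, z, t} (n : ℕ) (hn : 3 ≤ n) :
    ∃ (A : Type) (_ : CylOps n A), WRCA.{0, 0, 0} n A ∧ ¬ UpUrSRCA.{0, v, w, x, y, z, t} n A := by
  obtain ⟨k, rfl⟩ : ∃ k, n = k + 3 := ⟨n - 3, by omega⟩
  refine ⟨Al k, inferInstance, ⟨Al.isCA, Al.isAtomic, Al.representable⟩, ?_⟩
  obtain ⟨m, hm⟩ := ramsey (Option (Fin (2 * (k + 3) + 1)) ×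
    Fin ((k + 3) * (k + 3) + (k + 3) + 1))
  have hm' := fun f => hm (Fin m) (by rw [Fintype.card_fin]) f
  rintro ⟨I, U, B, iB, ⟨p, h1, h2, h3, h4, h5, h6⟩, hB⟩
  have H : IsUP (n := k + 3) U p := ⟨h1, h2, h3, h4, h5, h6⟩
  have h7 := (H.theta _ _ m).mp (Al.theta k m)
  obtain ⟨i, hi⟩ := h7.exists
  obtain ⟨J, W, C, iC, ⟨q, g1, g2, g3, g4, g5, g6⟩, hCA, hC, hC'⟩ := hB i
  have H' : IsUP (n := k + 3) W q := ⟨g1, g2, g3, g4, g5, g6⟩
  have h8 := (H'.theta _ _ m).mpr (Filter.Eventually.of_forall fun _ => hi)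
  exact not_representable hCA hC h8 hm' hC'

end Pool.Agent.Q216.UU
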